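import Pool.Agent.L7h65.SY.Sw
import Pool.Agent.L7h25.SY.Pf

/-!
# Project SY (MP_742c35_co): Euler's formula, part 2: the sweep equality.
-/

namespace Pool.Agent.L7h98.SY

open scoped InnerProductSpace
open Module Classical
open Pool.Agent.L7h65.SY (mem_T four exists_gen Mid three_le)
open Pool.Agent.L7h25.SY (face_aux le_one Fc Fc_exposed finrank_orth finrank_E3 weight_zero)

/-- a point of a convex hull where a functional attains its maximum, attained at one point only -/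
theorem eq_of_max {A : Finset E3} {f v q : E3} {c : ℝ} (hv : ⟪f, v⟫_ℝ = c)
    (hlt : ∀ x ∈ A, x ≠ v → ⟪f, x⟫_ℝ < c) (hq : q ∈ convexHull ℝ (A : Set E3))
    (hqc : ⟪f, q⟫_ℝ = c) : q = v := by
  obtain ⟨w, hw, hw1, hwq⟩ := Finset.mem_convexHull'.1 hq
  have h1 : ∑ x ∈ A, w x * (c - ⟪f, x⟫_ℝ) = 0 := by
    have h2 : ⟪f, q⟫_ℝ = ∑ x ∈ A, w x * ⟪f, x⟫_ℝ := by
      rw [← hwq, inner_sum]
      exact Finset.sum_congr rfl fun v _ => by rw [inner_smul_right]
    have h3 : ∑ x ∈ A, w x * (c - ⟪f, x⟫_ℝ) = (∑ x ∈ A, w x) * c - ∑ x ∈ A, w x * ⟪f, x⟫_ℝ := by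
      rw [Finset.sum_mul, ← Finset.sum_sub_distrib]
      exact Finset.sum_congr rfl fun v _ => by ring
    rw [h3, hw1, ← h2, hqc, one_mul, sub_self]
  have hnn : ∀ x ∈ A, 0 ≤ w x * (c - ⟪f, x⟫_ℝ) := by
    intro x hx
    refine mul_nonneg (hw x hx) ?_
    by_cases e : x = v
    · rw [e, hv, sub_self]
    · linarith [hlt x hx e]
  have h2 := (Finset.sum_eq_zero_iff_of_nonneg hnn).1 h1
  have h3 : ∀ x ∈ A, w x • x = w x • v := by
    intro x hx
    by_cases e : x = v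
    · rw [e]
    · have := (mul_eq_zero.1 (h2 x hx)).resolve_right (by linarith [hlt x hx e])
      rw [this, zero_smul, zero_smul]
  rw [← hwq, Finset.sum_congr rfl h3, ← Finset.sum_smul, hw1, one_smul]

/-- in every direction of the level plane there is a facet in which `v` is middle -/
theorem mid_dir {V H : Finset E3} (p : Pair V H) {y0 y v z d : E3} (hv : v ∈ V)
    (hgen : ∀ x ∈ V, ⟪y0, x⟫_ℝ = ⟪y0, v⟫_ℝ → x = v)
    (hyv : ⟪y, v⟫_ℝ = 1) (hy : ∀ x ∈ V, x ≠ v → ⟪y, x⟫_ℝ < 1)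
    (hzH : ∀ h ∈ H, ⟪h, z⟫_ℝ < 1) (hzl : ⟪y0, z⟫_ℝ = ⟪y0, v⟫_ℝ) (hzy : ⟪y, z⟫_ℝ < 1)
    (hd0 : d ≠ 0) (hdl : ⟪y0, d⟫_ℝ = 0) (hdy : ⟪y, d⟫_ℝ = 0) :
    ∃ h ∈ H, 0 < ⟪h, d⟫_ℝ ∧ Mid V y0 h v := by
  -- moving a little from `v` in a direction which is fine for the facets at `v`
  have move : ∀ u : E3, (∀ h ∈ T H v, ⟪h, u⟫_ℝ ≤ 0) → ∃ δ : ℝ, 0 < δ ∧
      v + δ • u ∈ convexHull ℝ (V : Set E3) := by
    intro u hu
    have key : ∀ h ∈ H, ∀ᶠ δ : ℝ in nhdsWithin 0 (Set.Ioi 0), ⟪h, v + δ • u⟫_ℝ ≤ 1 := by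
      intro h hh
      by_cases h1 : ⟪h, v⟫_ℝ = 1
      · have h2 := hu h (mem_T.2 ⟨hh, by rw [real_inner_comm]; exact h1⟩)
        filter_upwards [self_mem_nhdsWithin] with δ hδ
        have h3 : (0 : ℝ) < δ := hδ
        rw [inner_add_right, inner_smul_right, h1]
        nlinarith
      · have h2 : ⟪h, v⟫_ℝ < 1 := lt_of_le_of_ne (p.le v hv h hh) h1
        have h3 : Filter.Tendsto (fun δ : ℝ => ⟪h, v + δ • u⟫_ℝ) (nhdsWithin 0 (Set.Ioi 0))
            (nhds ⟪h, v⟫_ℝ) := by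
          have : Filter.Tendsto (fun δ : ℝ => ⟪h, v + δ • u⟫_ℝ) (nhds 0)
              (nhds (⟪h, v + (0 : ℝ) • u⟫_ℝ)) := (Continuous.tendsto (by fun_prop) 0)
          rw [zero_smul, add_zero] at this
          exact this.mono_left nhdsWithin_le_nhds
        exact (h3.eventually (gt_mem_nhds h2)).mono fun x hx => le_of_lt hx
    obtain ⟨δ, h6, h7⟩ := (((Filter.eventually_all_finset H).2 key).and
      self_mem_nhdsWithin).exists
    exact ⟨δ, h7, p.hullV _ h6⟩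
  -- some facet at `v` is increasing in the direction `d`
  have hex : ∃ h ∈ T H v, 0 < ⟪h, d⟫_ℝ := by
    by_contra hcon
    push Not at hcon
    obtain ⟨δ, hδ, hin⟩ := move d hcon
    have h1 : v + δ • d = v := eq_of_max hyv hy hin (by
      rw [inner_add_right, inner_smul_right, hyv, hdy]; ring)
    have h2 : δ • d = 0 := by simpa using h1
    rcases smul_eq_zero.1 h2 with h3 | h3
    · exact hδ.ne' h3
    · exact hd0 h3
  obtain ⟨h1, hh1, hh1d⟩ := hex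
  obtain ⟨k, hk, hkmin⟩ := Finset.exists_min_image ((T H v).filter fun h => 0 < ⟪h, d⟫_ℝ)
    (fun h => (1 - ⟪h, z⟫_ℝ) / ⟪h, d⟫_ℝ) ⟨h1, Finset.mem_filter.2 ⟨hh1, hh1d⟩⟩
  obtain ⟨hkT, hkd⟩ := Finset.mem_filter.1 hk
  obtain ⟨hkH, hkv⟩ := mem_T.1 hkT
  rw [real_inner_comm] at hkv
  set s : ℝ := (1 - ⟪k, z⟫_ℝ) / ⟪k, d⟫_ℝ with hs
  have hs0 : 0 < s := div_pos (by linarith [hzH k hkH]) hkd
  have hsk : s * ⟪k, d⟫_ℝ = 1 - ⟪k, z⟫_ℝ := div_mul_cancel₀ _ hkd.ne'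
  set q : E3 := z + s • d with hq
  have hqk : ⟪k, q⟫_ℝ = 1 := by
    rw [hq, inner_add_right, inner_smul_right, hsk]; ring
  have hqH : ∀ h ∈ T H v, ⟪h, q⟫_ℝ ≤ 1 := by
    intro h hh
    have hz' := hzH h (mem_T.1 hh).1
    rw [hq, inner_add_right, inner_smul_right]
    by_cases hd : 0 < ⟪h, d⟫_ℝ
    · have h2 := hkmin h (Finset.mem_filter.2 ⟨hh, hd⟩)
      have h3 : s * ⟪h, d⟫_ℝ ≤ 1 - ⟪h, z⟫_ℝ := by
        rwa [le_div_iff₀ hd] at h2
      linarith
    · push Not at hd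
      nlinarith
  have hql : ⟪y0, q⟫_ℝ = ⟪y0, v⟫_ℝ := by
    rw [hq, inner_add_right, inner_smul_right, hdl, hzl]; ring
  have hqy : ⟪y, q⟫_ℝ < 1 := by
    rw [hq, inner_add_right, inner_smul_right, hdy]; linarith
  obtain ⟨δ, hδ, hin⟩ := move (q - v) (by
    intro h hh
    have h2 := hqH h hh
    have h3 := (mem_T.1 hh).2
    rw [real_inner_comm] at h3
    rw [inner_sub_right, h3]
    linarith)
  have hrk : ⟪k, v + δ • (q - v)⟫_ℝ = 1 := by
    rw [inner_add_right, inner_smul_right, inner_sub_right, hqk, hkv]; ring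
  have hrl : ⟪y0, v + δ • (q - v)⟫_ℝ = ⟪y0, v⟫_ℝ := by
    rw [inner_add_right, inner_smul_right, inner_sub_right, hql]; ring
  have hry : ⟪y, v + δ • (q - v)⟫_ℝ < 1 := by
    rw [inner_add_right, inner_smul_right, inner_sub_right, hyv]
    nlinarith
  have hrT := face_aux (fun x hx => p.le x hx k hkH) hin hrk
  have hrne : v + δ • (q - v) ≠ v := by
    intro h2
    rw [h2, hyv] at hry
    exact lt_irrefl _ hry
  refine ⟨k, hkH, hkd, hkv, ?_, ?_⟩
  · by_contra hcon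
    push Not at hcon
    apply hrne
    refine eq_of_max (f := -y0) (c := -⟪y0, v⟫_ℝ) (by rw [inner_neg_left]) ?_ hrT
      (by rw [inner_neg_left, hrl])
    intro x hx hxv
    rw [inner_neg_left]
    refine neg_lt_neg (lt_of_le_of_ne (hcon x hx) fun h2 => hxv ?_)
    exact hgen x (mem_T.1 hx).1 h2.symm
  · by_contra hcon
    push Not at hcon
    apply hrne
    refine eq_of_max (f := y0) (c := ⟪y0, v⟫_ℝ) rfl ?_ hrT hrl
    intro x hx hxv
    refine lt_of_le_of_ne (hcon x hx) fun h2 => hxv ?_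
    exact hgen x (mem_T.1 hx).1 h2

/-- a non-extremal vertex is middle in at least two facets -/
theorem two_le_mid {V H : Finset E3} (p : Pair V H) {y0 v lo hi : E3} (hv : v ∈ V)
    (hgen : ∀ x ∈ V, ⟪y0, x⟫_ℝ = ⟪y0, v⟫_ℝ → x = v) (hlo : lo ∈ V) (hhi : hi ∈ V)
    (hl : ⟪y0, lo⟫_ℝ < ⟪y0, v⟫_ℝ) (hh : ⟪y0, v⟫_ℝ < ⟪y0, hi⟫_ℝ) :
    2 ≤ (H.filter fun h => Mid V y0 h v).card := by
  obtain ⟨y, hyv, hy⟩ := p.expV v hv
  -- an interior point on the level of `v`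
  obtain ⟨z, hzH, hzl, hzy⟩ : ∃ z : E3, (∀ h ∈ H, ⟪h, z⟫_ℝ < 1) ∧ ⟪y0, z⟫_ℝ = ⟪y0, v⟫_ℝ ∧
      ⟪y, z⟫_ℝ < 1 := by
    have key : ∀ q ∈ V, ∀ t : ℝ, 0 ≤ t → t < 1 → (∀ h ∈ H, ⟪h, t • q⟫_ℝ < 1) ∧
        ⟪y, t • q⟫_ℝ < 1 := by
      intro q hq t ht0 ht1
      have hyq : ⟪y, q⟫_ℝ ≤ 1 := by
        by_cases e : q = v
        · rw [e, hyv]
        · exact (hy q hq e).le
      refine ⟨fun h hh => ?_, ?_⟩
      · have := p.le q hq h hh
        rw [inner_smul_right]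
        nlinarith
      · rw [inner_smul_right]
        nlinarith
    by_cases h0 : 0 ≤ ⟪y0, v⟫_ℝ
    · have hpos : 0 < ⟪y0, hi⟫_ℝ := lt_of_le_of_lt h0 hh
      obtain ⟨k1, k2⟩ := key hi hhi (⟪y0, v⟫_ℝ / ⟪y0, hi⟫_ℝ) (by positivity)
        (by rw [div_lt_one hpos]; exact hh)
      exact ⟨_, k1, by rw [inner_smul_right]; exact div_mul_cancel₀ _ hpos.ne', k2⟩
    · push Not at h0
      have hneg : ⟪y0, lo⟫_ℝ < 0 := lt_trans hl h0
      obtain ⟨k1, k2⟩ := key lo hlo (⟪y0, v⟫_ℝ / ⟪y0, lo⟫_ℝ) (div_nonneg_of_nonpos h0.le hneg.le)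
        (by rw [div_lt_one_of_neg hneg]; exact hl)
      exact ⟨_, k1, by rw [inner_smul_right]; exact div_mul_cancel₀ _ hneg.ne, k2⟩
  -- the direction
  obtain ⟨d, hd0, hdl, hdy⟩ : ∃ d : E3, d ≠ 0 ∧ ⟪y0, d⟫_ℝ = 0 ∧ ⟪y, d⟫_ℝ = 0 := by
    let f : E3 →ₗ[ℝ] (Fin 2 → ℝ) := LinearMap.pi ![(innerₛₗ ℝ y0), (innerₛₗ ℝ y)]
    have hk : LinearMap.ker f ≠ ⊥ := LinearMap.ker_ne_bot_of_finrank_lt (by
      rw [finrank_E3]; simp)
    obtain ⟨d, hd, hd0⟩ := Submodule.exists_mem_ne_zero_of_ne_bot hk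
    rw [LinearMap.mem_ker] at hd
    refine ⟨d, hd0, ?_, ?_⟩
    · have := congrFun hd 0
      simpa [f] using this
    · have := congrFun hd 1
      simpa [f] using this
  obtain ⟨k1, hk1, hd1, hm1⟩ := mid_dir p hv hgen hyv hy hzH hzl hzy hd0 hdl hdy
  obtain ⟨k2, hk2, hd2, hm2⟩ := mid_dir p hv hgen hyv hy hzH hzl hzy (neg_ne_zero.2 hd0)
    (by rw [inner_neg_right, hdl, neg_zero]) (by rw [inner_neg_right, hdy, neg_zero])
  rw [inner_neg_right] at hd2
  have hne : k1 ≠ k2 := by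
    rintro rfl
    linarith
  rw [← Finset.card_pair hne]
  refine Finset.card_le_card fun x hx => ?_
  rw [Finset.mem_insert, Finset.mem_singleton] at hx
  rcases hx with rfl | rfl
  · exact Finset.mem_filter.2 ⟨hk1, hm1⟩
  · exact Finset.mem_filter.2 ⟨hk2, hm2⟩

/-- the sweep bound is an equality -/
theorem sweep_ge (hbas : S_BAS) {V H : Finset E3} (p : Pair V H) :
    2 * V.card + 2 * H.card ≤ ∑ h ∈ H, (T V h).card + 4 := by
  obtain ⟨y0, hy0⟩ := exists_gen V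
  have hVne : V.Nonempty := by
    rw [Finset.nonempty_iff_ne_empty]
    intro h0
    have h1 := (hbas V H p).2.2.2.1
    rw [h0, Finset.coe_empty, convexHull_empty, interior_empty] at h1
    exact h1
  -- the rows
  have hrow : ∀ h ∈ H, (V.filter fun v => Mid V y0 h v).card + 2 ≤ (T V h).card := by
    intro h hh
    have h3 := three_le hbas p hh
    have hne : (T V h).Nonempty := Finset.card_pos.1 (by omega)
    obtain ⟨lo, hlo, hlo'⟩ := Finset.exists_min_image (T V h) (fun v => ⟪y0, v⟫_ℝ) hne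
    obtain ⟨hi, hhi, hhi'⟩ := Finset.exists_max_image (T V h) (fun v => ⟪y0, v⟫_ℝ) hne
    have hne' : lo ≠ hi := by
      intro e
      have h1 : T V h ⊆ {lo} := by
        intro x hx
        rw [Finset.mem_singleton]
        refine hy0 x (mem_T.1 hx).1 lo (mem_T.1 hlo).1 (le_antisymm ?_ (hlo' x hx))
        have := hhi' x hx
        rw [← e] at this
        exact this
      have h2 := Finset.card_le_card h1
      rw [Finset.card_singleton] at h2
      omega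
    have hsub : insert lo (insert hi (V.filter fun v => Mid V y0 h v)) ⊆ T V h := by
      intro x hx
      rw [Finset.mem_insert, Finset.mem_insert, Finset.mem_filter] at hx
      rcases hx with rfl | rfl | ⟨hx, hm⟩
      · exact hlo
      · exact hhi
      · exact mem_T.2 ⟨hx, hm.1⟩
    have n1 : hi ∉ V.filter fun v => Mid V y0 h v := by
      intro hx
      obtain ⟨-, -, -, b, hb, hb'⟩ := Finset.mem_filter.1 hx
      have := hhi' b hb
      linarith
    have n2 : lo ∉ insert hi (V.filter fun v => Mid V y0 h v) := by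
      intro hx
      rcases Finset.mem_insert.1 hx with e | hx
      · exact hne' e
      · obtain ⟨-, -, ⟨a, ha, ha'⟩, -⟩ := Finset.mem_filter.1 hx
        have := hlo' a ha
        linarith
    have := Finset.card_le_card hsub
    rw [Finset.card_insert_of_notMem n2, Finset.card_insert_of_notMem n1] at this
    exact this
  -- double counting
  have hdc : ∑ h ∈ H, (V.filter fun v => Mid V y0 h v).card =
      ∑ v ∈ V, (H.filter fun h => Mid V y0 h v).card :=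
    Finset.sum_card_bipartiteAbove_eq_sum_card_bipartiteBelow (Mid V y0)
  obtain ⟨lo, hlo, hlo'⟩ := Finset.exists_min_image V (fun v => ⟪y0, v⟫_ℝ) hVne
  obtain ⟨hi, hhi, hhi'⟩ := Finset.exists_max_image V (fun v => ⟪y0, v⟫_ℝ) hVne
  have hsum : 2 * (V.card - 2) ≤ ∑ v ∈ V, (H.filter fun h => Mid V y0 h v).card := by
    have h1 : ∑ v ∈ (V.erase lo).erase hi, (H.filter fun h => Mid V y0 h v).card ≤
        ∑ v ∈ V, (H.filter fun h => Mid V y0 h v).card :=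
      Finset.sum_le_sum_of_subset ((Finset.erase_subset _ _).trans (Finset.erase_subset _ _))
    have h2 : V.card - 2 ≤ ((V.erase lo).erase hi).card := by
      have a1 := Finset.pred_card_le_card_erase (s := V) (a := lo)
      have a2 := Finset.pred_card_le_card_erase (s := V.erase lo) (a := hi)
      omega
    refine le_trans ?_ h1
    refine le_trans (Nat.mul_le_mul_left 2 h2) ?_
    rw [mul_comm, ← smul_eq_mul]
    refine Finset.card_nsmul_le_sum _ _ 2 fun v hv => ?_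
    obtain ⟨hvhi, hv1⟩ := Finset.mem_erase.1 hv
    obtain ⟨hvlo, hvV⟩ := Finset.mem_erase.1 hv1
    refine two_le_mid p hvV (fun x hx h => hy0 x hx v hvV h) hlo hhi ?_ ?_
    · exact lt_of_le_of_ne (hlo' v hvV) fun e => hvlo (hy0 v hvV lo hlo e.symm)
    · exact lt_of_le_of_ne (hhi' v hvV) fun e => hvhi (hy0 v hvV hi hhi e)
  have hfin : ∑ h ∈ H, ((V.filter fun v => Mid V y0 h v).card + 2) ≤ ∑ h ∈ H, (T V h).card :=
    Finset.sum_le_sum hrow
  rw [Finset.sum_add_distrib, hdc, Finset.sum_const, smul_eq_mul] at hfin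
  omega

end Pool.Agent.L7h98.SY
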