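import Pool.Agent.L7h98.SY.Stm

/-!
# Project SY (MP_742c35_co): parts B and TRI.
-/

namespace Pool.Agent.L7h98.SY

open scoped InnerProductSpace
open Module Classical

theorem s_B (ho : S_ONE) : S_B := by
  intro G _ V H p hf a b hb
  obtain ⟨c, rfl⟩ := Nat.exists_eq_add_of_le hb
  -- truncations
  have step1 : ∀ a : ℕ, ∃ V' H' : Finset E3, GP G V' H' ∧
      V'.card = V.card + (1 + 2 * a) * Nat.card G ∧ H'.card = H.card + (2 + a) * Nat.card G ∧
      FT G V' H' ∧ FT G H' V' := by
    intro a
    induction a with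
    | zero =>
      obtain ⟨V', H', p', hv, hh, f1, f2⟩ := ho G V H p hf
      exact ⟨V', H', p', by rw [hv]; ring, by rw [hh], f1, f2⟩
    | succ a ih =>
      obtain ⟨V1, H1, p1, hv1, hh1, f1, f2⟩ := ih
      obtain ⟨H2, V2, p2, hh2, hv2, g1, g2⟩ := ho G H1 V1 ⟨p1.1.symm, p1.2.2, p1.2.1⟩ f2
      exact ⟨V2, H2, ⟨p2.1.symm, p2.2.2, p2.2.1⟩, by rw [hv2, hv1]; ring,
        by rw [hh2, hh1]; ring, g2, g1⟩
  have step2 : ∀ c : ℕ, ∃ V' H' : Finset E3, GP G V' H' ∧
      V'.card = V.card + (1 + c + 2 * a) * Nat.card G ∧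
      H'.card = H.card + (2 * (1 + c) + a) * Nat.card G ∧ FT G V' H' ∧ FT G H' V' := by
    intro c
    induction c with
    | zero =>
      obtain ⟨V', H', p', hv, hh, f1, f2⟩ := step1 a
      exact ⟨V', H', p', by rw [hv], by rw [hh], f1, f2⟩
    | succ c ih =>
      obtain ⟨V1, H1, p1, hv1, hh1, f1, f2⟩ := ih
      obtain ⟨V2, H2, p2, hv2, hh2, g1, g2⟩ := ho G V1 H1 p1 f1
      exact ⟨V2, H2, p2, by rw [hv2, hv1]; ring, by rw [hh2, hh1]; ring, g1, g2⟩
  exact step2 c

theorem s_TRI (hb : S_BAS) (hw : S_SW) : S_TRI := by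
  intro V H p
  have hs := hw V H p
  have h3 := (hb V H p).2.1
  have h3' := (hb H V p.symm).2.1
  have e1 : 3 * H.card ≤ ∑ h ∈ H, (T V h).card := by
    have := Finset.card_nsmul_le_sum H (fun h => (T V h).card) 3 h3
    simpa [mul_comm] using this
  have hdc : ∑ h ∈ H, (T V h).card = ∑ v ∈ V, (T H v).card := by
    have := Finset.sum_card_bipartiteAbove_eq_sum_card_bipartiteBelow
      (s := H) (t := V) (fun h v => ⟪h, v⟫_ℝ = 1)
    simp only [Finset.bipartiteAbove, Finset.bipartiteBelow] at this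
    rw [show (∑ h ∈ H, (T V h).card) = ∑ a ∈ H, (V.filter fun b => ⟪a, b⟫_ℝ = 1).card from rfl, this]
    refine Finset.sum_congr rfl fun v _ => ?_
    unfold T
    congr 1
    ext x
    simp [real_inner_comm]
  refine ⟨by omega, ?_, ?_⟩
  · have e2 : 4 * H.card ≤ ∑ h ∈ H, (T V h).card + (H.filter fun h => (T V h).card = 3).card := by
      rw [Finset.card_filter, ← Finset.sum_add_distrib]
      have : ∀ h ∈ H, 4 ≤ (T V h).card + if (T V h).card = 3 then 1 else 0 := by
        intro h hh
        have := h3 h hh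
        split_ifs with hc <;> omega
      have := Finset.card_nsmul_le_sum H _ 4 this
      simpa [mul_comm] using this
    omega
  · by_contra hcon
    push Not at hcon
    obtain ⟨c1, c2⟩ := hcon
    have e3 : 4 * H.card ≤ ∑ h ∈ H, (T V h).card := by
      have := Finset.card_nsmul_le_sum H (fun h => (T V h).card) 4 (fun h hh => by
        have := h3 h hh
        have := c1 h hh
        omega)
      simpa [mul_comm] using this
    have e4 : 4 * V.card ≤ ∑ v ∈ V, (T H v).card := by
      have := Finset.card_nsmul_le_sum V (fun h => (T H h).card) 4 (fun h hh => by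
        have := h3' h hh
        have := c2 h hh
        omega)
      simpa [mul_comm] using this
    omega

end Pool.Agent.L7h98.SY
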