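import Pool.Agent.L7h98.SY.Stm

/-!
# Project SY (MP_742c35_co): part EXA.
-/

namespace Pool.Agent.L7h98.SY

open scoped InnerProductSpace
open Module Classical

theorem T_map' {G : Subgroup (E3 ≃ₗᵢ[ℝ] E3)} {V : Finset E3} (pV : ∀ g ∈ G, ∀ v ∈ V, g v ∈ V)
    {g : E3 ≃ₗᵢ[ℝ] E3} (hg : g ∈ G) (h : E3) : T V (g h) = (T V h).image g := by
  ext x
  unfold T
  simp only [Finset.mem_filter, Finset.mem_image]
  constructor
  · rintro ⟨hx, h1⟩
    refine ⟨g⁻¹ x, ⟨pV _ (G.inv_mem hg) x hx, ?_⟩, ?_⟩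
    · have : g (g⁻¹ x) = x := g.apply_symm_apply x
      rw [← LinearIsometryEquiv.inner_map_map g, this]
      exact h1
    · exact g.apply_symm_apply x
  · rintro ⟨y, ⟨hy, h1⟩, rfl⟩
    exact ⟨pV g hg y hy, by rw [LinearIsometryEquiv.inner_map_map]; exact h1⟩

theorem cen_map' {G : Subgroup (E3 ≃ₗᵢ[ℝ] E3)} {V : Finset E3} (pV : ∀ g ∈ G, ∀ v ∈ V, g v ∈ V)
    {g : E3 ≃ₗᵢ[ℝ] E3} (hg : g ∈ G) (h : E3) : cen V (g h) = g (cen V h) := by
  unfold cen
  rw [T_map' pV hg h, Finset.card_image_of_injective _ g.injective,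
    Finset.sum_image (fun x _ y _ hxy => g.injective hxy), map_smul, map_sum]

theorem image_hull_eq {G : Subgroup (E3 ≃ₗᵢ[ℝ] E3)} {V : Finset E3}
    (pV : ∀ g ∈ G, ∀ v ∈ V, g v ∈ V) {g : E3 ≃ₗᵢ[ℝ] E3} (hg : g ∈ G) :
    lin g '' convexHull ℝ (V : Set E3) = convexHull ℝ (V : Set E3) := by
  rw [LinearMap.image_convexHull]
  congr 1
  ext x
  simp only [Set.mem_image, Finset.mem_coe]
  constructor
  · rintro ⟨v, hv, rfl⟩
    exact pV g hg v hv
  · intro hx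
    exact ⟨g⁻¹ x, pV _ (G.inv_mem hg) x hx, g.apply_symm_apply x⟩

theorem s_EXA (hs : S_STK) (hl : S_LIN) (hg : S_GEN) (hb : S_BAS) : S_EXA := by
  intro G _ V H p f hf hd
  have := Fintype.ofFinite G
  obtain ⟨pVH, pV, pH⟩ := p
  set φ : G × Fin 4 → E3 := fun x => (x.1 : E3 ≃ₗᵢ[ℝ] E3) (f x.2) with hφ
  have hinj : Function.Injective φ := by
    rintro ⟨g, i⟩ ⟨g', j⟩ h
    simp only [hφ] at h
    have h1 : ((g' : E3 ≃ₗᵢ[ℝ] E3)⁻¹ * g) (f i) = f j := by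
      show (g' : E3 ≃ₗᵢ[ℝ] E3)⁻¹ ((g : E3 ≃ₗᵢ[ℝ] E3) (f i)) = f j
      rw [h]
      exact (g' : E3 ≃ₗᵢ[ℝ] E3).symm_apply_apply (f j)
    have hm : (g' : E3 ≃ₗᵢ[ℝ] E3)⁻¹ * g ∈ G := G.mul_mem (G.inv_mem g'.2) g.2
    have hij : i = j := hd i j _ hm h1
    subst hij
    have h2 := (hf i).2.2 _ hm h1
    have h3 : (g : E3 ≃ₗᵢ[ℝ] E3) = g' := by
      rw [inv_mul_eq_one] at h2
      exact h2.symm
    rw [Subtype.ext h3]
  set F : Finset E3 := Finset.univ.image φ with hF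
  have hFc : F.card = 4 * Nat.card G := by
    rw [hF, Finset.card_image_of_injective _ hinj, Finset.card_univ, Fintype.card_prod,
      Fintype.card_fin, Nat.card_eq_fintype_card, mul_comm]
  have hFH : F ⊆ H := by
    intro x hx
    rw [hF, Finset.mem_image] at hx
    obtain ⟨⟨g, i⟩, -, rfl⟩ := hx
    exact pH g g.2 _ (hf i).1
  have hF3 : ∀ h ∈ F, (T V h).card = 3 := by
    intro x hx
    rw [hF, Finset.mem_image] at hx
    obtain ⟨⟨g, i⟩, -, rfl⟩ := hx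
    simp only [hφ]
    rw [T_map' pV g.2, Finset.card_image_of_injective _ (LinearIsometryEquiv.injective _)]
    exact (hf i).2.1
  obtain ⟨ε₀, hε₀, hS⟩ := hs V H F pVH hFH hF3
  obtain ⟨r, hr, hS⟩ := hS (ε₀ / 2) (by positivity) (by linarith)
  set ε : ℝ := ε₀ / 2 with hε
  set U : Set (Fin 4 → E3) := {w | ∀ i, ‖w i - (1 + ε) • cen V (f i)‖ < r} with hU
  have hUo : IsOpen U := by
    rw [hU, Set.setOf_forall]
    exact isOpen_iInter_of_finite fun i => isOpen_lt (by fun_prop) continuous_const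
  have hUn : U.Nonempty := ⟨fun i => (1 + ε) • cen V (f i), fun i => by simpa using hr⟩
  have hspan : Submodule.span ℝ (V : Set E3) = ⊤ := by
    rw [← Submodule.orthogonal_eq_bot_iff, Submodule.eq_bot_iff]
    intro z hz
    rw [Submodule.mem_orthogonal'] at hz
    exact (hb V H pVH).1 (f 0) (hf 0).1 z fun v hv =>
      hz v (Submodule.subset_span (Finset.mem_filter.mp hv).1)
  obtain ⟨w, hwU, hw⟩ := hg G V hspan U hUo hUn
  set W : E3 → E3 := fun x => if hx : ∃ q : G × Fin 4, φ q = x then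
    (hx.choose.1 : E3 ≃ₗᵢ[ℝ] E3) (w hx.choose.2) else 0 with hW
  have hWφ : ∀ q : G × Fin 4, W (φ q) = (q.1 : E3 ≃ₗᵢ[ℝ] E3) (w q.2) := by
    intro q
    have hx : ∃ q' : G × Fin 4, φ q' = φ q := ⟨q, rfl⟩
    have : hx.choose = q := hinj hx.choose_spec
    simp only [hW]
    rw [dif_pos hx, this]
  obtain ⟨k, hk⟩ := hS W (by
    intro x hx
    rw [hF, Finset.mem_image] at hx
    obtain ⟨q, -, rfl⟩ := hx
    rw [hWφ q]
    simp only [hφ]
    rw [cen_map' pV q.1.2, ← map_smul, ← map_sub, LinearIsometryEquiv.norm_map]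
    exact hwU q.2)
  have hmem : ∀ x, x ∈ newV V F W ↔ (x ∈ V ∨ ∃ i, ∃ g ∈ G, g (w i) = x) := by
    intro x
    unfold newV
    rw [Finset.mem_union, Finset.mem_image]
    refine or_congr Iff.rfl ?_
    constructor
    · rintro ⟨y, hy, rfl⟩
      rw [hF, Finset.mem_image] at hy
      obtain ⟨q, -, rfl⟩ := hy
      exact ⟨q.2, q.1, q.1.2, (hWφ q).symm⟩
    · rintro ⟨i, g, hg, rfl⟩
      exact ⟨φ (⟨g, hg⟩, i), Finset.mem_image_of_mem _ (Finset.mem_univ _), hWφ _⟩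
  have hinv : ∀ g ∈ G, ∀ v ∈ newV V F W, g v ∈ newV V F W := by
    intro g hg v hv
    rw [hmem] at hv ⊢
    rcases hv with hv | ⟨i, g', hg', rfl⟩
    · exact Or.inl (pV g hg v hv)
    · exact Or.inr ⟨i, g * g', G.mul_mem hg hg', rfl⟩
  have hhull : ∀ g ∈ G, lin g '' convexHull ℝ (newV V F W : Set E3) =
      convexHull ℝ (newV V F W : Set E3) := fun g hg => image_hull_eq hinv hg
  refine ⟨newV V F W, newH V H F k, ⟨hk.pair, hinv, fun g hg => ?_⟩, ?_, ?_, ?_⟩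
  · exact (hl.2 _ _ hk.pair g (hhull g hg)).2
  · rw [hk.cardV, hFc]
  · rw [hk.cardH, hFc]; ring
  · unfold Exact Symm
    ext A
    simp only [Set.mem_setOf_eq]
    constructor
    · intro hA
      obtain ⟨hbij, hmap⟩ := hl.1 _ _ hk.pair A hA
      refine hw A hbij.1 fun x hx => ?_
      rw [← hmem] at hx ⊢
      exact hmap x hx
    · rintro ⟨g, hg, rfl⟩
      exact hhull g hg

end Pool.Agent.L7h98.SY
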