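import Pool.Agent.L7h98.SY.Fin
import Pool.Agent.L7h98.SY.B
import Pool.Agent.L7h98.SY.Exa
import Pool.Agent.L7h69.SY.Bas
import Pool.Agent.L7h69.SY.Ex
import Pool.Agent.L7h69.SY.Gen
import Pool.Agent.L7h69.SY.Lin
import Pool.Agent.L7h12.SY.D
import Pool.Agent.L7h12.SY.Dic
import Pool.Agent.L7h12.SY.Dx
import Pool.Agent.L7h12.SY.Fix3
import Pool.Agent.L7h12.SY.Tr
import Pool.Agent.L7h65.SY.Orb
import Pool.Agent.L7h65.SY.Sw
import Pool.Agent.L7h46.SY.Stk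
import Pool.Agent.L7h36.SY.Orb
import Pool.Agent.L7h36.SY.Rnd
import Pool.Agent.L7h25.SY.Pf

/-!
# Project SY (MP_742c35_co): everything together, and the version with full f-vectors.
-/

namespace Pool.Agent.L7h98.SY

open scoped InnerProductSpace
open Module Classical

theorem all_BAS : S_BAS := Pool.Agent.L7h69.SY.s_BAS
theorem all_LIN : S_LIN := Pool.Agent.L7h69.SY.s_LIN all_BAS
theorem all_SW : S_SW := Pool.Agent.L7h65.SY.s_SW all_BAS
theorem all_STK : S_STK := Pool.Agent.L7h46.SY.s_STK all_BAS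
theorem all_ORB : S_ORB := Pool.Agent.L7h65.SY.Orb.s_ORB all_STK all_LIN
theorem all_ONE : S_ONE := Pool.Agent.L7h36.SY.s_ONE all_ORB
theorem all_A : S_A := Pool.Agent.L7h36.SY.s_A all_ORB all_BAS
theorem all_TRI : S_TRI := s_TRI all_BAS all_SW

/-- all but finitely many pairs `(f₀, f₂)` -/
theorem pairs_finite : S_FIN :=
  s_FIN all_BAS Pool.Agent.L7h69.SY.s_EX all_LIN (Pool.Agent.L7h25.SY.s_PF all_BAS)
    Pool.Agent.L7h12.SY.s_TR all_TRI Pool.Agent.L7h12.SY.s_FIX3 all_A (s_B all_ONE)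
    (Pool.Agent.L7h36.SY.s_C4 all_ORB)
    (s_EXA all_STK all_LIN Pool.Agent.L7h69.SY.s_GEN all_BAS)
    (Pool.Agent.L7h12.SY.s_D all_TRI (Pool.Agent.L7h36.SY.s_RND all_ORB all_BAS) all_A all_ONE)
    (Pool.Agent.L7h12.SY.s_DX all_BAS) Pool.Agent.L7h12.SY.s_DIC

/-- The f-vector `(f₀, f₁, f₂)` of `P`. -/
noncomputable def fvec (P : Set E3) : ℕ × ℕ × ℕ := (faceCount 0 P, faceCount 1 P, faceCount 2 P)

/-- `F(G)`: the f-vectors of the 3-polytopes which are invariant under `G`. -/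
def FInv (G : Subgroup (E3 ≃ₗᵢ[ℝ] E3)) : Set (ℕ × ℕ × ℕ) :=
  {f | ∃ P, Is3Polytope P ∧ (∀ g ∈ G, lin g ∈ Symm P) ∧ f = fvec P}

/-- The f-vectors of the 3-polytopes whose linear symmetry group is exactly `G`. -/
def FExact (G : Subgroup (E3 ≃ₗᵢ[ℝ] E3)) : Set (ℕ × ℕ × ℕ) :=
  {f | ∃ P, Is3Polytope P ∧ Symm P = {A | ∃ g ∈ G, lin g = A} ∧ f = fvec P}

/-- Euler's formula for invariant 3-polytopes, from the one for dual pairs -/
theorem euler_inv (he : S_EUL) {G : Subgroup (E3 ≃ₗᵢ[ℝ] E3)} [Finite G] {P : Set E3}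
    (hP : Is3Polytope P) (hG : ∀ g ∈ G, lin g ∈ Symm P) :
    faceCount 1 P + 2 = faceCount 0 P + faceCount 2 P := by
  obtain ⟨S, h0, hS, hc⟩ := Pool.Agent.L7h12.SY.s_TR G P hP hG
  obtain ⟨V, H, hVH, hV⟩ := Pool.Agent.L7h69.SY.s_EX S h0
  obtain ⟨h1, h2⟩ := Pool.Agent.L7h25.SY.s_PF all_BAS V H hVH
  have h3 := he V H hVH
  rw [hV, hc] at h1 h2 h3
  omega

theorem triples_finite (he : S_EUL) (G : Subgroup (E3 ≃ₗᵢ[ℝ] E3)) [Finite G] :
    (FInv G \ FExact G).Finite := by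
  have hfin : (FG G \ FbarG G).Finite := pairs_finite G
  refine Set.Finite.of_finite_image (f := fun f : ℕ × ℕ × ℕ => (f.1, f.2.2))
    (hfin.subset ?_) ?_
  · rintro _ ⟨f, ⟨⟨P, hP, hG, rfl⟩, hn⟩, rfl⟩
    refine ⟨⟨P, hP, hG, rfl⟩, ?_⟩
    rintro ⟨P', hP', hS', he'⟩
    apply hn
    refine ⟨P', hP', hS', ?_⟩
    have e1 := euler_inv he hP hG
    have e2 := euler_inv (G := G) he hP' (fun g hg => by rw [hS']; exact ⟨g, hg, rfl⟩)
    have e3 : faceCount 0 P = faceCount 0 P' := congrArg Prod.fst he'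
    have e4 : faceCount 2 P = faceCount 2 P' := congrArg Prod.snd he'
    have e5 : faceCount 1 P = faceCount 1 P' := by omega
    unfold fvec
    rw [e3, e4, e5]
  · rintro f ⟨⟨P, hP, hG, rfl⟩, -⟩ f' ⟨⟨P', hP', hG', rfl⟩, -⟩ he'
    have e1 := euler_inv he hP hG
    have e2 := euler_inv he hP' hG'
    have e3 : faceCount 0 P = faceCount 0 P' := congrArg Prod.fst he'
    have e4 : faceCount 2 P = faceCount 2 P' := congrArg Prod.snd he'
    have e5 : faceCount 1 P = faceCount 1 P' := by omega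
    unfold fvec
    rw [e3, e4, e5]

end Pool.Agent.L7h98.SY
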