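import Mathlib

/-!
# Project SY (MP_742c35_co): exact symmetry groups and f-vectors of 3-polytopes. Definitions.
-/

namespace Pool.Agent.L7h98.SY

open scoped InnerProductSpace
open Module Classical

/-- three-dimensional Euclidean space -/
abbrev E3 := EuclideanSpace ℝ (Fin 3)

/-- a 3-polytope: the convex hull of finitely many points, with nonempty interior -/
def Is3Polytope (P : Set E3) : Prop :=
  ∃ S : Finset E3, P = convexHull ℝ (S : Set E3) ∧ (interior P).Nonempty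

/-- the number of `k`-dimensional faces of `P` -/
noncomputable def faceCount (k : ℕ) (P : Set E3) : ℕ :=
  {F : Set E3 | IsExposed ℝ P F ∧ F.Nonempty ∧ finrank ℝ (vectorSpan ℝ F) = k}.ncard

/-- the linear symmetry group of `P`, as a set of linear maps -/
def Symm (P : Set E3) : Set (E3 →ₗ[ℝ] E3) := {A | A '' P = P}

/-- the linear map of a linear isometry -/
def lin (g : E3 ≃ₗᵢ[ℝ] E3) : E3 →ₗ[ℝ] E3 := g.toLinearEquiv.toLinearMap

/-- A dual pair of finite sets: `V` the vertices of a polytope with `0` in the interior, `H` the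
vertices of its polar (the facets `⟪h, x⟫ ≤ 1`). Symmetric in `V` and `H`. -/
structure Pair (V H : Finset E3) : Prop where
  le : ∀ v ∈ V, ∀ h ∈ H, ⟪h, v⟫_ℝ ≤ 1
  hullV : ∀ x : E3, (∀ h ∈ H, ⟪h, x⟫_ℝ ≤ 1) → x ∈ convexHull ℝ (V : Set E3)
  hullH : ∀ y : E3, (∀ v ∈ V, ⟪y, v⟫_ℝ ≤ 1) → y ∈ convexHull ℝ (H : Set E3)
  expV : ∀ v ∈ V, ∃ y : E3, ⟪y, v⟫_ℝ = 1 ∧ ∀ v' ∈ V, v' ≠ v → ⟪y, v'⟫_ℝ < 1
  expH : ∀ h ∈ H, ∃ x : E3, ⟪h, x⟫_ℝ = 1 ∧ ∀ h' ∈ H, h' ≠ h → ⟪h', x⟫_ℝ < 1

theorem Pair.symm {V H : Finset E3} (p : Pair V H) : Pair H V where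
  le := fun h hh v hv => by rw [real_inner_comm]; exact p.le v hv h hh
  hullV := fun y hy => p.hullH y fun v hv => by rw [real_inner_comm]; exact hy v hv
  hullH := fun x hx => p.hullV x fun h hh => by rw [real_inner_comm]; exact hx h hh
  expV := fun h hh => by
    obtain ⟨x, h1, h2⟩ := p.expH h hh
    exact ⟨x, by rw [real_inner_comm]; exact h1, fun h' hh' hne => by
      rw [real_inner_comm]; exact h2 h' hh' hne⟩
  expH := fun v hv => by
    obtain ⟨y, h1, h2⟩ := p.expV v hv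
    exact ⟨y, by rw [real_inner_comm]; exact h1, fun v' hv' hne => by
      rw [real_inner_comm]; exact h2 v' hv' hne⟩

/-- the elements of `A` on which the functional `y` is equal to one: for `A = V` and `y` a facet,
the vertices of the facet; for `A = H` and `y` a vertex, the facets at the vertex -/
noncomputable def T (A : Finset E3) (y : E3) : Finset E3 := A.filter fun x => ⟪y, x⟫_ℝ = 1

/-- the centre of a facet -/
noncomputable def cen (V : Finset E3) (h : E3) : E3 := ((T V h).card : ℝ)⁻¹ • ∑ x ∈ T V h, x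

/-- a `G`-invariant pair -/
def GP (G : Subgroup (E3 ≃ₗᵢ[ℝ] E3)) (V H : Finset E3) : Prop :=
  Pair V H ∧ (∀ g ∈ G, ∀ v ∈ V, g v ∈ V) ∧ (∀ g ∈ G, ∀ h ∈ H, g h ∈ H)

/-- `y` has trivial stabilizer in `G` -/
def Free (G : Subgroup (E3 ≃ₗᵢ[ℝ] E3)) (y : E3) : Prop := ∀ g ∈ G, g y = y → g = 1

/-- there is a triangular facet with trivial stabilizer -/
def FT (G : Subgroup (E3 ≃ₗᵢ[ℝ] E3)) (V H : Finset E3) : Prop :=
  ∃ h ∈ H, (T V h).card = 3 ∧ Free G h

/-- the polytope with vertices `V` has exactly the linear symmetries `G` -/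
def Exact (G : Subgroup (E3 ≃ₗᵢ[ℝ] E3)) (V : Finset E3) : Prop :=
  Symm (convexHull ℝ (V : Set E3)) = {A | ∃ g ∈ G, lin g = A}

/-- the new set of facets after stacking the triangular facets `h ∈ F`; `k h x` is the new facet
opposite to the old vertex `x` -/
noncomputable def newH (V H F : Finset E3) (k : E3 → E3 → E3) : Finset E3 :=
  (H \ F) ∪ F.biUnion fun h => (T V h).image (k h)

/-- the new set of vertices -/
noncomputable def newV (V F : Finset E3) (w : E3 → E3) : Finset E3 := V ∪ F.image w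

/-- Stacking: for every `h ∈ F` (triangular facets) the point `w h` is added above the facet `h`,
which is replaced by the three facets `k h x`, `x` a vertex of the facet `h`, with the vertices
`w h` and the vertices of `h` other than `x`. -/
structure Stk (V H F : Finset E3) (w : E3 → E3) (k : E3 → E3 → E3) : Prop where
  pair : Pair (newV V F w) (newH V H F k)
  wnot : ∀ h ∈ F, w h ∉ V
  winj : ∀ h ∈ F, ∀ h' ∈ F, w h = w h' → h = h'
  wabove : ∀ h ∈ F, 1 < ⟪h, w h⟫_ℝ
  wbelow : ∀ h ∈ F, ∀ h' ∈ H, h' ≠ h → ⟪h', w h⟫_ℝ < 1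
  knot : ∀ h ∈ F, ∀ x ∈ T V h, k h x ∉ H
  kT : ∀ h ∈ F, ∀ x ∈ T V h, T (newV V F w) (k h x) = insert (w h) ((T V h).erase x)
  old : ∀ h ∈ H, h ∉ F → T (newV V F w) h = T V h
  wT : ∀ h ∈ F, T (newH V H F k) (w h) = (T V h).image (k h)
  wT3 : ∀ h ∈ F, (T (newH V H F k) (w h)).card = 3
  cardV : (newV V F w).card = V.card + F.card
  cardH : (newH V H F k).card = H.card + 2 * F.card

/-- The f-vectors (recorded by the pair `(f₀, f₂)`) of the 3-polytopes invariant under `G`. -/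
def FG (G : Subgroup (E3 ≃ₗᵢ[ℝ] E3)) : Set (ℕ × ℕ) :=
  {f | ∃ P, Is3Polytope P ∧ (∀ g ∈ G, lin g ∈ Symm P) ∧ f = (faceCount 0 P, faceCount 2 P)}

/-- The f-vectors of the 3-polytopes whose linear symmetry group is exactly `G`. -/
def FbarG (G : Subgroup (E3 ≃ₗᵢ[ℝ] E3)) : Set (ℕ × ℕ) :=
  {f | ∃ P, Is3Polytope P ∧ Symm P = {A | ∃ g ∈ G, lin g = A} ∧
    f = (faceCount 0 P, faceCount 2 P)}

end Pool.Agent.L7h98.SY
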