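import Pool.Agent.L7h65.SY.Sw
import Pool.Agent.L7h25.SY.Pf

/-!
# Project SY (MP_742c35_co): Euler's formula, part 1: edges.
-/

namespace Pool.Agent.L7h98.SY

open scoped InnerProductSpace
open Module Classical
open Pool.Agent.L7h65.SY (mem_T four exists_gen Mid)
open Pool.Agent.L7h25.SY (face_aux le_one Fc Fc_exposed finrank_orth finrank_E3 weight_zero)

/-- the edges: pairs of vertices which are the tight set of a functional -/
noncomputable def edges (V : Finset E3) : Finset (Finset E3) :=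
  (V.powersetCard 2).filter fun e => ∃ y, (∀ v ∈ V, ⟪y, v⟫_ℝ ≤ 1) ∧ T V y = e

theorem mem_edges {V : Finset E3} {e : Finset E3} :
    e ∈ edges V ↔ e.card = 2 ∧ ∃ y, (∀ v ∈ V, ⟪y, v⟫_ℝ ≤ 1) ∧ T V y = e := by
  unfold edges
  rw [Finset.mem_filter, Finset.mem_powersetCard]
  constructor
  · rintro ⟨⟨-, h2⟩, h3⟩
    exact ⟨h2, h3⟩
  · rintro ⟨h2, y, h3, h4⟩
    refine ⟨⟨?_, h2⟩, y, h3, h4⟩
    rw [← h4]
    exact Finset.filter_subset _ _

/-- three exposed points are affinely independent -/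
theorem aff3 {x1 x2 x3 f1 f2 f3 : E3} (h11 : ⟪f1, x1⟫_ℝ = 1) (h12 : ⟪f1, x2⟫_ℝ < 1)
    (h13 : ⟪f1, x3⟫_ℝ < 1) (h22 : ⟪f2, x2⟫_ℝ = 1) (h21 : ⟪f2, x1⟫_ℝ < 1) (h23 : ⟪f2, x3⟫_ℝ < 1)
    (h33 : ⟪f3, x3⟫_ℝ = 1) (h31 : ⟪f3, x1⟫_ℝ < 1) (h32 : ⟪f3, x2⟫_ℝ < 1) {a b c : ℝ}
    (hs : a + b + c = 0) (h : a • x1 + b • x2 + c • x3 = 0) : a = 0 ∧ b = 0 ∧ c = 0 := by
  have key : ∀ z : E3, a * ⟪z, x1⟫_ℝ + b * ⟪z, x2⟫_ℝ + c * ⟪z, x3⟫_ℝ = 0 := by
    intro z
    have := congrArg (fun t => ⟪z, t⟫_ℝ) h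
    simpa only [inner_add_right, inner_smul_right, inner_zero_right] using this
  have k1 := key f1
  have k2 := key f2
  have k3 := key f3
  rw [h11] at k1
  rw [h22] at k2
  rw [h33] at k3
  have e1 : b * (1 - ⟪f1, x2⟫_ℝ) + c * (1 - ⟪f1, x3⟫_ℝ) = 0 := by linear_combination hs - k1
  have e2 : a * (1 - ⟪f2, x1⟫_ℝ) + c * (1 - ⟪f2, x3⟫_ℝ) = 0 := by linear_combination hs - k2
  have e3 : a * (1 - ⟪f3, x1⟫_ℝ) + b * (1 - ⟪f3, x2⟫_ℝ) = 0 := by linear_combination hs - k3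
  have pos : ∀ {p q s t : ℝ}, 0 < s → 0 < t → p * s + q * t = 0 → 0 < p → q < 0 := by
    intro p q s t hs ht he hp
    by_contra hq
    push Not at hq
    have := mul_pos hp hs
    have := mul_nonneg hq ht.le
    linarith
  have neg : ∀ {p q s t : ℝ}, 0 < s → 0 < t → p * s + q * t = 0 → p < 0 → 0 < q := by
    intro p q s t hs ht he hp
    by_contra hq
    push Not at hq
    have := mul_pos (neg_pos.2 hp) hs
    have := mul_nonneg (neg_nonneg.2 hq) ht.le
    linarith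
  have s12 : 0 < 1 - ⟪f1, x2⟫_ℝ := by linarith
  have s13 : 0 < 1 - ⟪f1, x3⟫_ℝ := by linarith
  have s21 : 0 < 1 - ⟪f2, x1⟫_ℝ := by linarith
  have s23 : 0 < 1 - ⟪f2, x3⟫_ℝ := by linarith
  have s31 : 0 < 1 - ⟪f3, x1⟫_ℝ := by linarith
  have s32 : 0 < 1 - ⟪f3, x2⟫_ℝ := by linarith
  have ha : a = 0 := by
    rcases lt_trichotomy a 0 with ha | ha | ha
    · have hc := neg s21 s23 e2 ha
      have hb := neg s31 s32 e3 ha
      have := pos s12 s13 e1 hb
      linarith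
    · exact ha
    · have hc := pos s21 s23 e2 ha
      have hb := pos s31 s32 e3 ha
      have := neg s12 s13 e1 hb
      linarith
  subst ha
  have hb : b = 0 := by
    have : b * (1 - ⟪f3, x2⟫_ℝ) = 0 := by linear_combination e3
    exact (mul_eq_zero.1 this).resolve_right s32.ne'
  subst hb
  exact ⟨rfl, rfl, by linarith⟩

theorem aff3V {V H : Finset E3} (p : Pair V H) {x1 x2 x3 : E3} (h1 : x1 ∈ V) (h2 : x2 ∈ V)
    (h3 : x3 ∈ V) (n12 : x1 ≠ x2) (n13 : x1 ≠ x3) (n23 : x2 ≠ x3) {a b c : ℝ}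
    (hs : a + b + c = 0) (h : a • x1 + b • x2 + c • x3 = 0) : a = 0 ∧ b = 0 ∧ c = 0 := by
  obtain ⟨f1, e1, g1⟩ := p.expV x1 h1
  obtain ⟨f2, e2, g2⟩ := p.expV x2 h2
  obtain ⟨f3, e3, g3⟩ := p.expV x3 h3
  exact aff3 e1 (g1 x2 h2 n12.symm) (g1 x3 h3 n13.symm) e2 (g2 x1 h1 n12) (g2 x3 h3 n23.symm)
    e3 (g3 x1 h1 n13) (g3 x2 h2 n23) hs h

/-- collinear sets of vertices have at most two elements -/
theorem card_le_of_collinear {V H : Finset E3} (p : Pair V H) {S : Finset E3} (hS : S ⊆ V)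
    (hc : Collinear ℝ (S : Set E3)) : S.card ≤ 2 := by
  by_contra hcon
  push Not at hcon
  obtain ⟨x1, m1, x2, m2, x3, m3, n12, n13, n23⟩ := Finset.two_lt_card.1 hcon
  rw [collinear_iff_of_mem (p₀ := x1) (Finset.mem_coe.2 m1)] at hc
  obtain ⟨u, hu⟩ := hc
  obtain ⟨r2, hr2⟩ := hu x2 m2
  obtain ⟨r3, hr3⟩ := hu x3 m3
  rw [vadd_eq_add] at hr2 hr3
  have := aff3V p (hS m1) (hS m2) (hS m3) n12 n13 n23 (a := r2 - r3) (b := r3) (c := -r2)
    (by ring) (by rw [hr2, hr3]; module)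
  obtain ⟨-, h3, h2⟩ := this
  apply n12
  rw [hr2]
  have : r2 = 0 := by linarith
  rw [this]
  simp

theorem Fc_eq {V : Finset E3} {y : E3} (hy : ∀ v ∈ V, ⟪y, v⟫_ℝ ≤ 1) :
    Fc V y = convexHull ℝ (T V y : Set E3) := by
  ext x
  constructor
  · rintro ⟨h1, h2⟩
    exact face_aux hy h1 h2
  · intro hx
    have hc : Convex ℝ {z : E3 | ⟪y, z⟫_ℝ = 1} := convex_hyperplane
      ⟨fun a b => inner_add_right _ _ _, fun c a => by rw [inner_smul_right]; rfl⟩ 1
    refine ⟨convexHull_mono ?_ hx, convexHull_min (fun v hv => (mem_T.1 hv).2) hc hx⟩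
    intro v hv
    exact (mem_T.1 hv).1

theorem vspan_hull (S : Set E3) : vectorSpan ℝ (convexHull ℝ S) = vectorSpan ℝ S := by
  rw [← direction_affineSpan, affineSpan_convexHull, direction_affineSpan]

/-- the exposed faces of small dimension are given by points of the polar -/
theorem exposed_form (hb : S_BAS) {V H : Finset E3} (hp : Pair V H) {F : Set E3}
    (h1 : IsExposed ℝ (convexHull ℝ (V : Set E3)) F) (h2 : F.Nonempty)
    (h3 : finrank ℝ (vectorSpan ℝ F) ≤ 2) :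
    ∃ y : E3, (∀ v ∈ V, ⟪y, v⟫_ℝ ≤ 1) ∧ F = Fc V y := by
  obtain ⟨b1, b2, b3, b4, b5, b6⟩ := hb V H hp
  obtain ⟨l, hl⟩ := h1 h2
  obtain ⟨x₀, hx₀⟩ := h2
  set y : E3 := (InnerProductSpace.toDual ℝ E3).symm l with hy
  have hly : ∀ z, l z = ⟪y, z⟫_ℝ := fun z => by
    rw [hy, InnerProductSpace.toDual_symm_apply]
  have hF : ∀ x, x ∈ F ↔ x ∈ convexHull ℝ (V : Set E3) ∧
      ∀ z ∈ convexHull ℝ (V : Set E3), ⟪y, z⟫_ℝ ≤ ⟪y, x⟫_ℝ := by
    intro x
    rw [hl]
    simp only [Set.mem_ofPred_eq, hly]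
  have hy0 : y ≠ 0 := by
    intro h
    have h4 : F = convexHull ℝ (V : Set E3) := by
      ext x
      rw [hF]
      constructor
      · exact fun h => h.1
      · exact fun hx => ⟨hx, fun z _ => by rw [h]; simp⟩
    have h5 : (interior (convexHull ℝ (V : Set E3))).Nonempty := ⟨0, b4⟩
    have h6 : vectorSpan ℝ (convexHull ℝ (V : Set E3)) = ⊤ := by
      have h7 : affineSpan ℝ (convexHull ℝ (V : Set E3)) = ⊤ := by
        rw [affineSpan_convexHull]
        exact affineSpan_eq_top_of_nonempty_interior h5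
      rw [← direction_affineSpan, h7, AffineSubspace.direction_top]
    rw [h4, h6, finrank_top, finrank_E3] at h3
    omega
  set m := ⟪y, x₀⟫_ℝ with hm
  have hmax : ∀ z ∈ convexHull ℝ (V : Set E3), ⟪y, z⟫_ℝ ≤ m := ((hF x₀).1 hx₀).2
  have hm0 : 0 < m := by
    have hc : Filter.Tendsto (fun t : ℝ => t • y) (nhdsWithin 0 (Set.Ioi 0)) (nhds 0) := by
      have : Filter.Tendsto (fun t : ℝ => t • y) (nhds 0) (nhds ((0 : ℝ) • y)) :=
        (Continuous.tendsto (by fun_prop) 0)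
      rw [zero_smul] at this
      exact this.mono_left nhdsWithin_le_nhds
    have h4 := hc.eventually (mem_interior_iff_mem_nhds.1 b4)
    obtain ⟨t, ht1, ht2⟩ := (h4.and self_mem_nhdsWithin).exists
    have h5 := hmax _ ht1
    rw [inner_smul_right, real_inner_self_eq_norm_sq] at h5
    have h6 : 0 < ‖y‖ := norm_pos_iff.2 hy0
    have h7 : (0 : ℝ) < t := ht2
    have : 0 < t * ‖y‖ ^ 2 := by positivity
    linarith
  have hin : ∀ z, ⟪m⁻¹ • y, z⟫_ℝ = m⁻¹ * ⟪y, z⟫_ℝ := fun z => by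
    rw [real_inner_smul_left]
  have hle' : ∀ z ∈ convexHull ℝ (V : Set E3), ⟪m⁻¹ • y, z⟫_ℝ ≤ 1 := by
    intro z hz
    rw [hin, inv_mul_le_iff₀ hm0, mul_one]
    exact hmax z hz
  refine ⟨m⁻¹ • y, fun v hv => hle' v (subset_convexHull ℝ _ hv), ?_⟩
  ext x
  rw [hF]
  constructor
  · rintro ⟨k1, k2⟩
    refine ⟨k1, ?_⟩
    have k3 := k2 x₀ ((hF x₀).1 hx₀).1
    have k4 := hmax x k1
    have k5 : ⟪y, x⟫_ℝ = m := le_antisymm k4 k3
    rw [hin, k5, inv_mul_cancel₀ hm0.ne']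
  · rintro ⟨k1, k2⟩
    refine ⟨k1, fun z hz => ?_⟩
    rw [hin, inv_mul_eq_one₀ hm0.ne'] at k2
    rw [← k2]
    exact hmax z hz

/-- the tight set is determined by the face -/
theorem T_of_Fc {V : Finset E3} {y : E3} : (T V y : Set E3) = Fc V y ∩ V := by
  ext x
  constructor
  · intro hx
    obtain ⟨h1, h2⟩ := mem_T.1 hx
    exact ⟨⟨subset_convexHull ℝ _ h1, h2⟩, h1⟩
  · rintro ⟨⟨-, h2⟩, h1⟩
    exact mem_T.2 ⟨h1, h2⟩

theorem faces_one (hb : S_BAS) {V H : Finset E3} (hp : Pair V H) :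
    {F : Set E3 | IsExposed ℝ (convexHull ℝ (V : Set E3)) F ∧ F.Nonempty ∧
      finrank ℝ (vectorSpan ℝ F) = 1} =
      (fun e : Finset E3 => convexHull ℝ (e : Set E3)) '' (edges V : Set (Finset E3)) := by
  ext F
  constructor
  · rintro ⟨h1, h2, h3⟩
    obtain ⟨y, hy, hF⟩ := exposed_form hb hp h1 h2 (by omega)
    rw [Fc_eq hy] at hF
    rw [hF, vspan_hull] at h3
    refine ⟨T V y, ?_, hF.symm⟩
    rw [Finset.mem_coe, mem_edges]
    refine ⟨?_, y, hy, rfl⟩
    have hle : (T V y).card ≤ 2 := card_le_of_collinear hp (Finset.filter_subset _ _)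
      (collinear_iff_finrank_le_one.2 h3.le)
    have hge : 2 ≤ (T V y).card := by
      by_contra hcon
      have hc : (T V y).card = 0 ∨ (T V y).card = 1 := by omega
      rcases hc with hc | hc
      · rw [Finset.card_eq_zero] at hc
        rw [hc, Finset.coe_empty, vectorSpan_empty] at h3
        simp at h3
      · obtain ⟨x, hx⟩ := Finset.card_eq_one.1 hc
        rw [hx, Finset.coe_singleton, vectorSpan_singleton] at h3
        simp at h3
    omega
  · rintro ⟨e, he, rfl⟩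
    rw [Finset.mem_coe, mem_edges] at he
    obtain ⟨h2, y, hy, rfl⟩ := he
    have hne : (T V y).Nonempty := Finset.card_pos.1 (by omega)
    refine ⟨?_, ?_, ?_⟩
    · show IsExposed ℝ (convexHull ℝ (V : Set E3)) (convexHull ℝ (T V y : Set E3))
      rw [← Fc_eq hy]
      exact Fc_exposed hy hne
    · obtain ⟨x, hx⟩ := hne
      exact ⟨x, subset_convexHull ℝ _ hx⟩
    · show finrank ℝ (vectorSpan ℝ (convexHull ℝ (T V y : Set E3))) = 1
      rw [vspan_hull]
      obtain ⟨a, b, hab, he⟩ := Finset.card_eq_two.1 h2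
      rw [he, Finset.coe_insert, Finset.coe_singleton, vectorSpan_pair]
      exact finrank_span_singleton (sub_ne_zero.2 hab)

theorem faceCount_one (hb : S_BAS) {V H : Finset E3} (hp : Pair V H) :
    faceCount 1 (convexHull ℝ (V : Set E3)) = (edges V).card := by
  show Set.ncard _ = _
  rw [faces_one hb hp, Set.InjOn.ncard_image, Set.ncard_coe_finset]
  intro e he e' he' heq
  rw [Finset.mem_coe, mem_edges] at he he'
  obtain ⟨-, y, hy, rfl⟩ := he
  obtain ⟨-, y', hy', rfl⟩ := he'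
  have heq' : convexHull ℝ (T V y : Set E3) = convexHull ℝ (T V y' : Set E3) := heq
  rw [← Fc_eq hy, ← Fc_eq hy'] at heq'
  have : (T V y : Set E3) = (T V y' : Set E3) := by
    rw [T_of_Fc, T_of_Fc, heq']
  exact Finset.coe_injective this

/-- every edge is in exactly two facets -/
theorem edge_two (hb : S_BAS) {V H : Finset E3} (p : Pair V H) {e : Finset E3}
    (he : e ∈ edges V) : (H.filter fun h => e ⊆ T V h).card = 2 := by
  rw [mem_edges] at he
  obtain ⟨h2, y, hy, hT⟩ := he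
  obtain ⟨a, b, hab, heq⟩ := Finset.card_eq_two.1 h2
  have haT : a ∈ T V y := by rw [hT, heq]; simp
  have hbT : b ∈ T V y := by rw [hT, heq]; simp
  obtain ⟨haV, hya⟩ := mem_T.1 haT
  obtain ⟨hbV, hyb⟩ := mem_T.1 hbT
  set z : E3 := (1 / 2 : ℝ) • (a + b) with hz
  have hzin : ∀ x : E3, ⟪z, x⟫_ℝ = (⟪x, a⟫_ℝ + ⟪x, b⟫_ℝ) / 2 := by
    intro x
    rw [hz, real_inner_smul_left, inner_add_left, real_inner_comm, real_inner_comm x b]
    ring
  have hfil : (H.filter fun h => e ⊆ T V h) = T H z := by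
    ext h
    rw [Finset.mem_filter, mem_T]
    refine and_congr_right fun hh => ?_
    have la := p.le a haV h hh
    have lb := p.le b hbV h hh
    rw [hzin]
    constructor
    · intro hsub
      have ea : a ∈ T V h := hsub (by rw [heq]; simp)
      have eb : b ∈ T V h := hsub (by rw [heq]; simp)
      rw [(mem_T.1 ea).2, (mem_T.1 eb).2]
      norm_num
    · intro h1 x hx
      rw [heq, Finset.mem_insert, Finset.mem_singleton] at hx
      rcases hx with rfl | rfl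
      · exact mem_T.2 ⟨haV, by linarith⟩
      · exact mem_T.2 ⟨hbV, by linarith⟩
  rw [hfil]
  have hyz : ⟪z, y⟫_ℝ = 1 := by rw [hzin, hya, hyb]; norm_num
  have hzH : ∀ h ∈ H, ⟪z, h⟫_ℝ ≤ 1 := by
    intro h hh
    have la := p.le a haV h hh
    have lb := p.le b hbV h hh
    rw [hzin]
    linarith
  have hyc := face_aux hzH (p.hullH y hy) hyz
  apply le_antisymm
  · by_contra hcon
    push Not at hcon
    obtain ⟨h1, m1, h2', m2, h3, m3, n12, n13, n23⟩ := Finset.two_lt_card.1 hcon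
    have tight : ∀ h ∈ T H z, ⟪h, a⟫_ℝ = 1 ∧ ⟪h, b⟫_ℝ = 1 := by
      intro h hh
      obtain ⟨hh1, hh2⟩ := mem_T.1 hh
      have la := p.le a haV h hh1
      have lb := p.le b hbV h hh1
      rw [hzin] at hh2
      exact ⟨by linarith, by linarith⟩
    obtain ⟨c0, c1, c2, c3, e0, hc⟩ := four a b (h2' - h1) (h3 - h1)
    apply hc
    have ta1 := tight h1 m1
    have ta2 := tight h2' m2
    have ta3 := tight h3 m3
    have hw0 : c2 • (h2' - h1) + c3 • (h3 - h1) = 0 := by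
      have w1 : ⟪a, c2 • (h2' - h1) + c3 • (h3 - h1)⟫_ℝ = 0 := by
        rw [real_inner_comm, inner_add_left, real_inner_smul_left, real_inner_smul_left,
          inner_sub_left, inner_sub_left, ta1.1, ta2.1, ta3.1]
        ring
      have w2 : ⟪b, c2 • (h2' - h1) + c3 • (h3 - h1)⟫_ℝ = 0 := by
        rw [real_inner_comm, inner_add_left, real_inner_smul_left, real_inner_smul_left,
          inner_sub_left, inner_sub_left, ta1.2, ta2.2, ta3.2]
        ring
      have w3 : c2 • (h2' - h1) + c3 • (h3 - h1) = -(c0 • a + c1 • b) := by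
        rw [eq_neg_iff_add_eq_zero, ← e0]
        abel
      have w4 : ⟪c2 • (h2' - h1) + c3 • (h3 - h1), c2 • (h2' - h1) + c3 • (h3 - h1)⟫_ℝ = 0 := by
        calc ⟪c2 • (h2' - h1) + c3 • (h3 - h1), c2 • (h2' - h1) + c3 • (h3 - h1)⟫_ℝ
            = ⟪-(c0 • a + c1 • b), c2 • (h2' - h1) + c3 • (h3 - h1)⟫_ℝ := by rw [← w3]
          _ = -(c0 * ⟪a, c2 • (h2' - h1) + c3 • (h3 - h1)⟫_ℝ +
              c1 * ⟪b, c2 • (h2' - h1) + c3 • (h3 - h1)⟫_ℝ) := by
              rw [inner_neg_left, inner_add_left, real_inner_smul_left, real_inner_smul_left]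
          _ = 0 := by rw [w1, w2]; ring
      exact inner_self_eq_zero.1 w4
    have hv := aff3V p.symm (mem_T.1 m1).1 (mem_T.1 m2).1 (mem_T.1 m3).1 n12 n13 n23
      (a := -(c2 + c3)) (b := c2) (c := c3) (by ring) (by rw [← hw0]; module)
    obtain ⟨-, hc2, hc3⟩ := hv
    have hab0 : c0 • a + c1 • b = 0 := by
      rw [hc2, hc3] at e0
      simpa using e0
    have k1 : c0 + c1 = 0 := by
      have := congrArg (fun t => ⟪y, t⟫_ℝ) hab0
      simp only [inner_add_right, inner_smul_right, inner_zero_right, hya, hyb] at this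
      linarith
    have k2 : c0 = 0 := by
      have h5 : c1 = -c0 := by linarith
      rw [h5] at hab0
      have h6 : c0 • (a - b) = 0 := by rw [← hab0]; module
      exact (smul_eq_zero.1 h6).resolve_right (sub_ne_zero.2 hab)
    exact ⟨k2, by linarith, hc2, hc3⟩
  · by_contra hcon
    have hc : (T H z).card = 0 ∨ (T H z).card = 1 := by omega
    rcases hc with hc | hc
    · rw [Finset.card_eq_zero] at hc
      rw [hc] at hyc
      simp at hyc
    · obtain ⟨h, hh⟩ := Finset.card_eq_one.1 hc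
      rw [hh, Finset.coe_singleton, convexHull_singleton] at hyc
      have hyh : y = h := hyc
      have hhH : h ∈ H := (mem_T.1 (show h ∈ T H z by rw [hh]; simp)).1
      have := (hb V H p).2.1 h hhH
      rw [← hyh, hT, h2] at this
      omega

end Pool.Agent.L7h98.SY
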