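import Pool.Agent.L7h98.SY.Stm

/-!
# Project SY (MP_742c35_co): assembly.
-/

namespace Pool.Agent.L7h98.SY

open scoped InnerProductSpace
open Module Classical

/-- sizes of the `G`-invariant pairs -/
def SG (G : Subgroup (E3 ≃ₗᵢ[ℝ] E3)) : Set (ℕ × ℕ) :=
  {f | ∃ V H : Finset E3, GP G V H ∧ f = (V.card, H.card)}

/-- sizes of the pairs with exact symmetry group `G` -/
def EG (G : Subgroup (E3 ≃ₗᵢ[ℝ] E3)) : Set (ℕ × ℕ) :=
  {f | ∃ V H : Finset E3, Pair V H ∧ Exact G V ∧ f = (V.card, H.card)}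

theorem GP.symm' {G : Subgroup (E3 ≃ₗᵢ[ℝ] E3)} {V H : Finset E3} (p : GP G V H) : GP G H V :=
  ⟨p.1.symm, p.2.2, p.2.1⟩

theorem FG_sub (hex : S_EX) (hl : S_LIN) (hp : S_PF) (ht : S_TR)
    (G : Subgroup (E3 ≃ₗᵢ[ℝ] E3)) [Finite G] : FG G ⊆ SG G := by
  rintro f ⟨P, hP, hG, rfl⟩
  obtain ⟨S, h0, hS, hc⟩ := ht G P hP hG
  obtain ⟨V, H, hVH, hV⟩ := hex S h0
  obtain ⟨h1, h2⟩ := hp V H hVH
  have key : ∀ g ∈ G, (∀ v ∈ V, g v ∈ V) ∧ (∀ h ∈ H, g h ∈ H) := fun g hg =>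
    hl.2 V H hVH g (by rw [hV]; exact hS g hg)
  refine ⟨V, H, ⟨hVH, fun g hg => (key g hg).1, fun g hg => (key g hg).2⟩, ?_⟩
  rw [← h1, ← h2, hV, hc, hc]

theorem EG_sub (hb : S_BAS) (hp : S_PF) (G : Subgroup (E3 ≃ₗᵢ[ℝ] E3)) :
    EG G ⊆ FbarG G := by
  rintro f ⟨V, H, hVH, hE, rfl⟩
  obtain ⟨h1, h2⟩ := hp V H hVH
  refine ⟨convexHull ℝ (V : Set E3), ⟨V, rfl, ⟨0, (hb V H hVH).2.2.2.1⟩⟩, hE, ?_⟩
  rw [h1, h2]

theorem EG_swap (hd : S_DX) (G : Subgroup (E3 ≃ₗᵢ[ℝ] E3)) {x y : ℕ} (h : (x, y) ∈ EG G) :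
    (y, x) ∈ EG G := by
  obtain ⟨V, H, hVH, hE, he⟩ := h
  have h1 : x = V.card := congrArg Prod.fst he
  have h2 : y = H.card := congrArg Prod.snd he
  exact ⟨H, V, hVH.symm, hd G H V hVH.symm hE, by rw [h1, h2]⟩

theorem ft_exact (hB : S_B) (hC : S_C4) (hX : S_EXA) (G : Subgroup (E3 ≃ₗᵢ[ℝ] E3)) [Finite G]
    {V H : Finset E3} (p : GP G V H) (hf : FT G V H) (a b : ℕ) (hb : 7 ≤ b) :
    (V.card + (b + 2 * a) * Nat.card G, H.card + (2 * b + a) * Nat.card G) ∈ EG G := by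
  obtain ⟨c, rfl⟩ := Nat.exists_eq_add_of_le hb
  obtain ⟨V1, H1, p1, hv1, hh1, f1, -⟩ := hB G V H p hf a (c + 1) (by omega)
  obtain ⟨V2, H2, p2, hv2, hh2, f, hf1, hf2⟩ := hC G V1 H1 p1 f1
  obtain ⟨V3, H3, p3, hv3, hh3, he⟩ := hX G V2 H2 p2 f hf1 hf2
  refine ⟨V3, H3, p3.1, he, ?_⟩
  ext
  · simp only [hv3, hv2, hv1]; ring
  · simp only [hh3, hh2, hh1]; ring

theorem tri_exact (ht : S_TRI) (hF : S_FIX3) (hA : S_A) (hB : S_B) (hC : S_C4) (hX : S_EXA)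
    (G : Subgroup (E3 ≃ₗᵢ[ℝ] E3)) [Finite G] {V H : Finset E3} (p : GP G V H)
    (hc : V.card + Nat.card G < H.card) :
    ∃ b₀ : ℕ, ∀ b, b₀ ≤ b → (V.card + b * Nat.card G, H.card + 2 * b * Nat.card G) ∈ EG G := by
  have h1 := (ht V H p.1).2.1
  have h2 := hF G V H p
  have h3 : ∃ h ∈ H.filter (fun h => (T V h).card = 3),
      h ∉ H.filter fun h => ∃ g ∈ G, g ≠ 1 ∧ g ^ 3 = 1 ∧ g h = h := by
    by_contra hcon
    push Not at hcon
    have := Finset.card_le_card (s := H.filter (fun h => (T V h).card = 3))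
      (t := H.filter fun h => ∃ g ∈ G, g ≠ 1 ∧ g ^ 3 = 1 ∧ g h = h) (fun x hx => hcon x hx)
    omega
  obtain ⟨h, hh, hn⟩ := h3
  rw [Finset.mem_filter] at hh
  have h4 : ∀ g ∈ G, g h = h → g ^ 3 = 1 → g = 1 := by
    intro g hg hgh hg3
    by_contra hg1
    exact hn (Finset.mem_filter.mpr ⟨hh.1, g, hg, hg1, hg3, hgh⟩)
  obtain ⟨m, V', H', p', hv', hh', hf'⟩ := hA G V H p ⟨h, hh.1, hh.2, h4⟩
  refine ⟨m + 7, fun b hb => ?_⟩
  obtain ⟨c, rfl⟩ := Nat.exists_eq_add_of_le hb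
  have := ft_exact hB hC hX G p' hf' 0 (7 + c) (by omega)
  rw [hv', hh'] at this
  convert this using 2 <;> ring

/-- The assembly. -/
theorem s_FIN (hbas : S_BAS) (hex : S_EX) (hl : S_LIN) (hp : S_PF) (htr : S_TR) (ht : S_TRI)
    (hF : S_FIX3) (hA : S_A) (hB : S_B) (hC : S_C4) (hX : S_EXA) (hD : S_D) (hDX : S_DX)
    (hdic : S_DIC) : S_FIN := by
  intro G _
  have key : (SG G \ EG G).Finite := by
    refine hdic (Nat.card G) (SG G) (EG G) Nat.card_pos ?_ ?_ ?_ ?_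
    · rintro x y ⟨V, H, p, he⟩
      have h1 : x = V.card := congrArg Prod.fst he
      have h2 : y = H.card := congrArg Prod.snd he
      subst h1 h2
      exact ⟨(ht V H p.1).1, (ht H V p.1.symm).1⟩
    · rintro x y ⟨V, H, p, he⟩
      have h1 : x = V.card := congrArg Prod.fst he
      have h2 : y = H.card := congrArg Prod.snd he
      subst h1 h2
      obtain ⟨a1, b1, V', H', p', hv', hh', hf'⟩ := hD G V H p
      refine ⟨a1, b1 + 7, fun a b ha hb => ?_⟩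
      obtain ⟨a', rfl⟩ := Nat.exists_eq_add_of_le ha
      obtain ⟨b', rfl⟩ := Nat.exists_eq_add_of_le hb
      have := ft_exact hB hC hX G p' hf' a' (7 + b') (by omega)
      rw [hv', hh'] at this
      convert this using 2 <;> ring
    · refine ⟨Nat.card G, ?_⟩
      rintro x y ⟨V, H, p, he⟩ hxy
      have h1 : x = V.card := congrArg Prod.fst he
      have h2 : y = H.card := congrArg Prod.snd he
      subst h1 h2
      exact tri_exact ht hF hA hB hC hX G p hxy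
    · refine ⟨Nat.card G, ?_⟩
      rintro x y ⟨V, H, p, he⟩ hxy
      have h1 : x = V.card := congrArg Prod.fst he
      have h2 : y = H.card := congrArg Prod.snd he
      subst h1 h2
      obtain ⟨b0, hb0⟩ := tri_exact ht hF hA hB hC hX G p.symm' hxy
      exact ⟨b0, fun b hb => EG_swap hDX G (hb0 b hb)⟩
  refine key.subset fun f hf => ⟨FG_sub hex hl hp htr G hf.1, fun h => hf.2 (EG_sub hbas hp G h)⟩

end Pool.Agent.L7h98.SY
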