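import Pool.Agent.L7h98.SY.Defs

/-!
# Project SY (MP_742c35_co): the parts.

MP_742c35_co, Q1: for every finite `G ⊆ O(3)` all but finitely many f-vectors of `G`-invariant
3-polytopes are f-vectors of polytopes with linear symmetry group exactly `G`. The answer is YES.

Everything is done with dual pairs `Pair V H` (Defs.lean): `V` = vertices, `H` = facets = vertices
of the polar; `Pair.symm` exchanges them. `T V h` = vertices of the facet `h`, `T H v` = facets at
the vertex `v` (note `T A y = {x ∈ A | ⟪y, x⟫ = 1}`). Operations: stack the orbit of a triangular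
facet, or (by `Pair.symm`) truncate the orbit of a simple vertex.

Every part is a `def S_X : Prop`; prove `theorem s_X : S_X` or, where the docstring says so,
`theorem s_X (h : S_Y) : S_X`, in your own folder.
-/

namespace Pool.Agent.L7h98.SY

open scoped InnerProductSpace
open Module Classical

/-- **[BAS]** Basic facts on a dual pair. Proof.
(1) `T V h` spans: let `z ⟂ T V h`. For small `δ > 0` the vectors `h ± δ z` satisfy
`⟪h ± δ z, v⟫ ≤ 1` for all `v ∈ V` (finitely many; those outside `T V h` have `⟪h, v⟫ < 1`), so lie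
in `conv H` (`hullH`). With `x` from `expH h`: `⟪·, x⟫ ≤ 1` on `conv H`, so `±δ⟪z, x⟫ ≤ 0`, thus
`⟪z,x⟫ = 0`, both points have `⟪·,x⟫ = 1`, and the points of `conv H` with `⟪·,x⟫ = 1` are only `h`
(write as a convex combination). So `z = 0`.
(2) hence `T V h` has at least 3 elements (3 = finrank E3 vectors needed to span).
(3) `conv V = {x | ∀ h ∈ H, ⟪h,x⟫ ≤ 1}` from `le` and `hullV`; (4) a neighbourhood of `0` satisfies
this since `H` is finite. (5) `h` is determined by `T V h`: if `⟪y, v⟫ = 1` for all `v ∈ T V h` then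
`y = h` by (1) applied to `y - h`. (6) a linearly independent triple inside `T V h` (from (1)). -/
def S_BAS : Prop := ∀ V H : Finset E3, Pair V H →
  (∀ h ∈ H, ∀ z : E3, (∀ v ∈ T V h, ⟪z, v⟫_ℝ = 0) → z = 0) ∧
  (∀ h ∈ H, 3 ≤ (T V h).card) ∧
  convexHull ℝ (V : Set E3) = {x | ∀ h ∈ H, ⟪h, x⟫_ℝ ≤ 1} ∧
  (0 : E3) ∈ interior (convexHull ℝ (V : Set E3)) ∧
  (∀ h ∈ H, ∀ y : E3, (∀ v ∈ T V h, ⟪y, v⟫_ℝ = 1) → y = h) ∧
  (∀ h ∈ H, ∃ f : Fin 3 → E3, (∀ i, f i ∈ T V h) ∧ LinearIndependent ℝ f)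

/-- **[EX]** Every polytope with `0` in the interior is `conv V` for a dual pair. Proof.
`V`: a subset of `S` with `conv V = conv S`, minimal under inclusion (finite), or the extreme points
(`Finset` filter) with Krein-Milman; `v ∉ conv (V \ {v})`, separate: `⟪y,v'⟫ < c < ⟪y,v⟫`; `c > 0`
since `0 ∈ interior conv V` forces `max_V ⟪y,·⟫ > 0`, which is attained at `v` only: scale to get
`expV`. Let `Q = {y | ∀ v ∈ V, ⟪y,v⟫ ≤ 1}`, compact (bounded since `0 ∈ interior conv V`) convex.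
`H` = extreme points of `Q`. For `y` extreme the tight set `T V y` spans (otherwise `z ⟂ T V y`,
`z ≠ 0`, `y ± δz ∈ Q`), so `y` is determined by `T V y ⊆ V`: `H` is finite. `hullH`: Krein-Milman
(`closure_convexHull_extremePoints`) and `Set.Finite.isClosed_convexHull`. `expH`: `x := cen V h`:
`⟪h,x⟫ = 1`, and `⟪h',x⟫ = 1` with `h' ∈ Q` forces `T V h ⊆ T V h'`, so `h' = h`. `hullV`: if
`x ∉ conv V` separate, `⟪y,v⟫ < c < ⟪y,x⟫`, `c > 0`, so `c⁻¹ y ∈ Q = conv H`, so
`⟪c⁻¹ y, x⟫ ≤ 1`, contradiction. -/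
def S_EX : Prop := ∀ S : Finset E3, (0 : E3) ∈ interior (convexHull ℝ (S : Set E3)) →
  ∃ V H : Finset E3, Pair V H ∧ convexHull ℝ (V : Set E3) = convexHull ℝ (S : Set E3)

/-- **[LIN]** (may use `S_BAS`). A linear map `A` with `A(conv V) = conv V` is bijective and
permutes `V`; an isometry which preserves `conv V` permutes `V` and `H`. Proof. `A` is surjective
(its range contains a neighbourhood of `0`) so bijective. `v ∈ V` is an extreme point of `conv V`
(by `expV`), hence so is `A v` (`A` is an affine isomorphism of `conv V` onto itself), and extreme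
points of `conv V` are in `V` (`extremePoints_convexHull_subset`). For an isometry `g`: `g` permutes
`V`; `conv H = {y | ∀ v ∈ V, ⟪y,v⟫ ≤ 1}` (Pair.symm and BAS) is preserved by `g`, as
`⟪g y, g v⟫ = ⟪y, v⟫`; apply the first part to `Pair.symm`. -/
def S_LIN : Prop := (∀ V H : Finset E3, Pair V H → ∀ A : E3 →ₗ[ℝ] E3,
    A '' convexHull ℝ (V : Set E3) = convexHull ℝ (V : Set E3) →
    Function.Bijective A ∧ ∀ v ∈ V, A v ∈ V) ∧
  (∀ V H : Finset E3, Pair V H → ∀ g : E3 ≃ₗᵢ[ℝ] E3,
    g '' convexHull ℝ (V : Set E3) = convexHull ℝ (V : Set E3) →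
    (∀ v ∈ V, g v ∈ V) ∧ (∀ h ∈ H, g h ∈ H))

/-- **[PF]** (may use `S_BAS`). Faces. 0-faces: exposed faces which are a single point
(`finrank (vectorSpan F) = 0` and nonempty): these are `{v}`, `v ∈ V` (`expV`; conversely the point
of an exposed face is an extreme point, so in `V`). 2-faces: `F_h = {x ∈ conv V | ⟪h,x⟫ = 1}`,
`h ∈ H`: exposed by `h`, contains 3 linearly independent points (BAS (6)), contained in a plane, so
of dimension 2; injective in `h` by BAS (5). Conversely an exposed face of dimension 2 is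
`{x ∈ conv V | l x maximal}`, `l = ⟪y,·⟫ ≠ 0` (otherwise dimension 3), the maximum `m` is `> 0` as
`0` is interior; replace `y` by `y/m`; so `F = {x ∈ conv V | ⟪y,x⟫ = 1}` and `y ∈ conv H` by `hullH`;
`F = conv (T V y)`; write `y = Σ c_h h`; all `h` with `c_h > 0` have `T V y ⊆ T V h`. `F` has
dimension 2 and does not contain 0 in its affine hull, so `T V y` spans `E3`, so `y = h`. -/
def S_PF : Prop := ∀ V H : Finset E3, Pair V H →
  faceCount 0 (convexHull ℝ (V : Set E3)) = V.card ∧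
  faceCount 2 (convexHull ℝ (V : Set E3)) = H.card

/-- **[TR]** Translation to a fixed interior point. Proof. `x₀ ∈ interior P`;
`c = (1/N) Σ_{g ∈ G} g x₀` is in the interior (convex, preserved by every `g ∈ G`, which is a
homeomorphism) and fixed by `G`. `S` = the points of `P` translated by `-c`. `g` preserves
`P - c` as `g c = c`. Exposed faces and their dimensions correspond under translation
(bijection `F ↦ F - c`; `vectorSpan` is the same). -/
def S_TR : Prop := ∀ (G : Subgroup (E3 ≃ₗᵢ[ℝ] E3)) [Finite G] (P : Set E3), Is3Polytope P →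
  (∀ g ∈ G, lin g ∈ Symm P) →
  ∃ S : Finset E3, (0 : E3) ∈ interior (convexHull ℝ (S : Set E3)) ∧
    (∀ g ∈ G, g '' convexHull ℝ (S : Set E3) = convexHull ℝ (S : Set E3)) ∧
    ∀ k : ℕ, faceCount k (convexHull ℝ (S : Set E3)) = faceCount k P

/-- **[SW]** (may use `S_BAS`). The upper bound on the number of incidences (the inequality half of
Euler's formula), by a sweep. Proof. Choose `y₀ ∈ E3` with `λ = ⟪y₀,·⟫` injective on `V` (finitely
many hyperplanes do not cover). Each facet `h` has one vertex where `λ` is minimal on `T V h` and one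
where it is maximal; the other incidences `(h, v)` are called middle. Number of incidences
= `2|H|` + number of middle ones. The `λ`-minimal and `λ`-maximal vertices of `V` have no middle
incidence. CLAIM: each other vertex `v` is middle in at most two facets; so the number of middle
incidences is `≤ 2(|V| - 2)`, which is the statement. Proof of the claim. Let `v` be middle in the
three facets `h₁, h₂, h₃`. In `conv (T V h_i)` there is `r_i ≠ v` with `λ(r_i) = λ(v)`: take a vertex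
below and one above, `a`, `b` `∈ T V h_i`, `r_i` the point of the segment `[a,b]` on the level of
`λ(v)`; `r_i ≠ v` because `v` is an extreme point (`expV`). Let `y` expose `v` (`expV`):
`⟪y,v⟫ = 1`, `⟪y,·⟫ < 1` on `V \ {v}`, so `⟪y, r_i⟫ < 1`. Put `s_i = v + t_i (r_i - v)`, `t_i > 0`,
with `⟪y, s_i - v⟫ = -1`. The `s_i` satisfy `⟪h_i, s_i⟫ = 1`, `⟪h_j, s_i⟫ ≤ 1` for all `j`
(`⟪h_j, v⟫ = 1`, `⟪h_j,r_i⟫ ≤ 1`), `λ(s_i) = λ(v)`, `⟪y,s_i⟫ = 0`: the three points lie on a common
line (`λ` and `y` are linearly independent, as `λ(r_i - v) = 0` and `⟪y, r_i - v⟫ < 0` and both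
nonzero: `λ(b) ≠ λ(a)`), so one of them is between the two others: say
`s₂ = (1-θ) s₁ + θ s₃` with `0 ≤ θ ≤ 1`. Then `1 = ⟪h₂,s₂⟫ = (1-θ)⟪h₂,s₁⟫ + θ⟪h₂,s₃⟫`, so
`⟪h₂,s₁⟫ = 1` or `⟪h₂,s₃⟫ = 1`; say `⟪h₂, s₁⟫ = 1`, hence `⟪h₂,r₁⟫ = 1`. As `r₁` is in the open
segment between `a, b ∈ T V h₁` and `⟪h₂,·⟫ ≤ 1` there, `a` and `b` are in `T V h₂` too. So `v, a, b`
all are in `T V h₁ ∩ T V h₂`, and they are linearly independent: they are not on a line
(`v` extreme, `λ(a) < λ(v) < λ(b)`, `a`, `b` extreme) and lie in the plane `⟪h₁,·⟫ = 1` which does not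
contain 0. So `h₁ = h₂`, a contradiction. -/
def S_SW : Prop := ∀ V H : Finset E3, Pair V H →
  ∑ h ∈ H, (T V h).card + 4 ≤ 2 * V.card + 2 * H.card

/-- **[STK]** (may use `S_BAS`). Stacking triangular facets. Proof. Write `T V h = {a,b,c}` for
`h ∈ F`: a basis of `E3` (BAS), and `w = w h = α a + β b + γ c` with `α, β, γ` close to
`(1+ε)/3`, `σ = α+β+γ > 1` close to `1+ε` (coordinates are continuous functions of `w`).
`⟪h,w⟫ = σ > 1` and for `h' ∈ H`, `h' ≠ h`: `⟪h', cen V h⟫ < 1` (BAS (5)), so `⟪h', w h⟫ < 1` for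
small `ε`, `r`. Let `a*` be the dual basis vector (`⟪a*,a⟫ = 1`, `⟪a*,b⟫ = ⟪a*,c⟫ = 0`) and
`k h a = h - ((σ-1)/α) a*`: equal to `1` at `b`, `c`, `w`, and `< 1` at `a`. For small `ε`, `r`:
`k h a` is close to `h`, so `⟪k h a, v⟫ < 1` for `v ∈ V \ T V h`, `⟪k h a, w h'⟫ < 1` for
`h' ∈ F`, `h' ≠ h` (since `⟪h, cen V h'⟫ < 1`). This gives `le`, `wabove`, `wbelow`, `kT`, `old`,
`winj`, `wnot`, `knot` (`k h x ∈ H` contradicts `wbelow`/`wabove` as `⟪k h x, w h⟫ = 1`).
`wT`: `⟪k h' x, w h⟫ < 1` for `h' ≠ h`, `⟪h', w h⟫ ≠ 1` for `h' ∈ H`.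
`hullV`: let `⟪h',x⟫ ≤ 1` for `h' ∈ H \ F` and `⟪k h a, x⟫ ≤ 1` for all `h ∈ F`, `a ∈ T V h`. If
`⟪h,x⟫ ≤ 1` for all `h ∈ F`, then `x ∈ conv V`. Otherwise `⟪h,x⟫ > 1` for some `h ∈ F`; put
`x = x_a a + x_b b + x_c c`, `s = x_a + x_b + x_c = ⟪h,x⟫ > 1`; `⟪k h a,x⟫ ≤ 1` says
`s - 1 ≤ (σ-1) x_a/α`, so `x_a ≥ α θ` with `θ = (s-1)/(σ-1) > 0`, and the same for `b`, `c`. Then
`x = θ w + (x_a - θα) a + (x_b - θβ) b + (x_c - θγ) c` with nonnegative coefficients of sum
`θ + s - θσ = θ + s - θ - (s - 1) = 1`: so `x ∈ conv {w,a,b,c}`.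
`hullH` follows from `hullV`, `le` and `0 ∈ interior` (bipolar): if `y ∉ conv (newH)` separate:
`⟪h',x⟫ < c < ⟪y,x⟫` for all `h' ∈ newH`; if `c > 0`, then `x/c` satisfies the hypotheses of `hullV`, so
is in `conv (newV)` and `⟪y, x/c⟫ ≤ 1` by assumption on `y`, contradiction; `c ≤ 0`: then `⟪h',tx⟫ ≤ 0 ≤ 1`
for all `t > 0`, all `t x` are in the bounded set `conv (newV)`, so `x = 0`, but `⟪0,·⟫ < c ≤ 0` is
absurd (newH nonempty).
`expV`: for `v ∈ V` take `y` from the old `expV`; `⟪y, cen V h⟫ < 1` for all `h ∈ F` (average of three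
values `≤ 1`, not all `1`), so `⟪y, w h⟫ < 1` for small `ε`, `r` (finitely many `y`). For `w h`:
`y = (k h a + k h b + k h c)/3`. `expH`: for `h' ∈ H \ F` `x = cen V h'`, for `k h a`:
`x = (w + b + c)/3` (points of `newH` equal to 1 on `T (newV) (k h a)`, a basis, are equal to it). -/
def S_STK : Prop := ∀ V H F : Finset E3, Pair V H → F ⊆ H → (∀ h ∈ F, (T V h).card = 3) →
  ∃ ε₀ : ℝ, 0 < ε₀ ∧ ∀ ε : ℝ, 0 < ε → ε < ε₀ → ∃ r : ℝ, 0 < r ∧ ∀ w : E3 → E3,
    (∀ h ∈ F, ‖w h - (1 + ε) • cen V h‖ < r) → ∃ k : E3 → E3 → E3, Stk V H F w k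

/-- **[ORB]** `theorem s_ORB (hs : S_STK) (hl : S_LIN) : S_ORB`. Stacking the orbit of a triangular
facet. Proof. `F = {h' ∈ H | ∃ g ∈ G, g h = h'}`; `T V (g h) = g (T V h)`, `cen V (g h) = g (cen V h)`.
`w h' = (1+ε) cen V h'` for a small `ε`; `Stk V H F w k` from STK; `g (w h') = w (g h')`; `V' = newV`
is `G`-invariant, so `conv V'` is, so by LIN also `H' = newH`. `w = w h`, `kk = k h`.
`g (w h) = w (g h) ∉ V`; `g (w h) = w h ↔ g h = h` by `winj`. `n = |F|` = size of the orbit,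
`n * |Stab| = |G|` (orbit-stabilizer; `MulAction` or `Finset.card_eq_sum_card_fiberwise`). -/
def S_ORB : Prop := ∀ (G : Subgroup (E3 ≃ₗᵢ[ℝ] E3)) [Finite G] (V H : Finset E3), GP G V H →
  ∀ h ∈ H, (T V h).card = 3 →
  ∃ (V' H' : Finset E3) (w : E3) (kk : E3 → E3) (n : ℕ),
    GP G V' H' ∧ V ⊆ V' ∧ w ∈ V' ∧ (∀ v ∈ V', v ∉ V → ∃ g ∈ G, g w = v) ∧
    (∀ g ∈ G, g w ∉ V) ∧ (∀ g ∈ G, (g w = w ↔ g h = h)) ∧
    V'.card = V.card + n ∧ H'.card = H.card + 2 * n ∧
    n * Nat.card {g : G // (g : E3 ≃ₗᵢ[ℝ] E3) h = h} = Nat.card G ∧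
    (∀ h' ∈ H, (∀ g ∈ G, g h ≠ h') → h' ∈ H' ∧ T V' h' = T V h') ∧
    (∀ x ∈ T V h, kk x ∈ H' ∧ kk x ∉ H ∧ T V' (kk x) = insert w ((T V h).erase x)) ∧
    T H' w = (T V h).image kk ∧ (T H' w).card = 3

/-- **[ONE]** `theorem s_ONE (ho : S_ORB) : S_ONE`. Stack the orbit of a triangular facet with
trivial stabilizer: `+N` vertices, `+2N` facets, and there is again a free triangular facet and a free
simple vertex. Proof: ORB with `Stab = 1`, `n = N`. `w` is a simple vertex with trivial stabilizer.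
`kk x` is a triangular facet for `x ∈ T V h`; if `g (kk x) = kk x`, then `g` preserves
`T V' (kk x) = {w} ∪ (T V h \ {x})` in which `w` is the only point not in `V`; `g` preserves `V`, so
`g w = w`, `g h = h`, `g = 1`. -/
def S_ONE : Prop := ∀ (G : Subgroup (E3 ≃ₗᵢ[ℝ] E3)) [Finite G] (V H : Finset E3), GP G V H →
  FT G V H → ∃ V' H' : Finset E3, GP G V' H' ∧ V'.card = V.card + Nat.card G ∧
    H'.card = H.card + 2 * Nat.card G ∧ FT G V' H' ∧ FT G H' V'

/-- **[A]** `theorem s_A (ho : S_ORB) (hb : S_BAS) : S_A`. If some triangular facet `h` has a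
stabilizer `K` without elements of order 3, we reach a free triangular facet after adding
`m (N, 2N)`. Proof. `K` acts faithfully on the three points of `T V h` (a basis), so `|K| = 1` (then
`m = 0`) or `|K| = 2` (`K` embeds in `S₃`; a subgroup of `S₃` of order ≥ 3 has an element of order 3),
`K = {1, ρ}`, and `ρ` fixes `a` and exchanges `b`, `c`, `T V h = {a,b,c}` (an involution of a set
with three elements which is not the identity). Stack the orbit of `h`: `n = N/2`. The facet `kk b`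
(vertices `w, a, c`) has trivial stabilizer: `g` preserves `{w,a,c}`, and `w` is the only element
outside `V`, so `g w = w`, `g h = h`, `g ∈ {1,ρ}`, and `ρ {w,a,c} = {w,a,b}`. The facet `kk a`
(vertices `w,b,c`) has the stabilizer `{1,ρ}` (`ρ` fixes `w`, preserves `{w,b,c}`, hence by BAS (5)
`ρ (kk a) = kk a`; conversely `g (kk a) = kk a` gives `g w = w`). Stack the orbit of `kk a`:
`n = N/2` again; `kk b` is not in this orbit (stabilizers), so it persists with the same `T`:
total `+N`, `+2N`, `m = 1`, and `kk b` is a free triangular facet. -/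
def S_A : Prop := ∀ (G : Subgroup (E3 ≃ₗᵢ[ℝ] E3)) [Finite G] (V H : Finset E3), GP G V H →
  (∃ h ∈ H, (T V h).card = 3 ∧ ∀ g ∈ G, g h = h → g ^ 3 = 1 → g = 1) →
  ∃ (m : ℕ) (V' H' : Finset E3), GP G V' H' ∧ V'.card = V.card + m * Nat.card G ∧
    H'.card = H.card + 2 * m * Nat.card G ∧ FT G V' H'

/-- **[B]** `theorem s_B (ho : S_ONE) : S_B`. From a free triangular facet, add
`((b+2a)N, (2b+a)N)` for all `a`, `b ≥ 1`. Proof: apply ONE; then `a` times ONE to the symmetric
pair `(H, V)` (`Pair.symm`, `FT G H' V'`), then `b - 1` times ONE. -/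
def S_B : Prop := ∀ (G : Subgroup (E3 ≃ₗᵢ[ℝ] E3)) [Finite G] (V H : Finset E3), GP G V H →
  FT G V H → ∀ a b : ℕ, 1 ≤ b → ∃ V' H' : Finset E3, GP G V' H' ∧
    V'.card = V.card + (b + 2 * a) * Nat.card G ∧ H'.card = H.card + (2 * b + a) * Nat.card G ∧
    FT G V' H' ∧ FT G H' V'

/-- **[C4]** `theorem s_C4 (ho : S_ORB) : S_C4`. Four free triangular facets in distinct orbits.
Proof. Stack the orbit of the free triangular facet `h`, `T V h = {x₁,x₂,x₃}`: the facets `kk x_i` are
triangular, free (see ONE), and in distinct orbits: `g (kk x_i) = kk x_j` implies that `g` maps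
`{w} ∪ ..` to `{w} ∪ ..`, so `g w = w`, `g = 1`, `kk x_i = kk x_j`, and
`(T V h).erase x_i = (T V h).erase x_j`, `i = j`. Then stack the orbit of `kk x₁`: `kk x₂`, `kk x₃`
persist, together with the (two or three) new ones; new facets are not in the orbit of the old ones
(new facets `kk x ∉ H`). -/
def S_C4 : Prop := ∀ (G : Subgroup (E3 ≃ₗᵢ[ℝ] E3)) [Finite G] (V H : Finset E3), GP G V H →
  FT G V H → ∃ V' H' : Finset E3, GP G V' H' ∧ V'.card = V.card + 2 * Nat.card G ∧
    H'.card = H.card + 4 * Nat.card G ∧ ∃ f : Fin 4 → E3,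
      (∀ i, f i ∈ H' ∧ (T V' (f i)).card = 3 ∧ Free G (f i)) ∧
      (∀ i j, ∀ g ∈ G, g (f i) = f j → i = j)

/-- **[GEN]** Generic points kill all symmetries except `G`. Proof. Labels `I = V ⊕ (G × Fin 4)`,
`loc w (inl v) = v`, `loc w (inr (g,i)) = g (w i)`, continuous in `w`. Let `p, q, r ∈ V` be a basis of
`E3`. For a triple of labels and a label `σ = (s₁,s₂,s₃,s₄)` and an index `i₀` let
`A_σ w` be the linear map with `p,q,r ↦ loc w s₁, loc w s₂, loc w s₃` and
`Z σ i₀ = {w | A_σ w (w i₀) = loc w s₄}`, a closed set. As there are finitely many `(σ, i₀)`, there is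
a nonempty open `U' ⊆ U` such that for all `(σ,i₀)`: `U' ∩ Z = ∅` or `U' ⊆ Z` (one after the other:
if `U' \ Z` is nonempty, replace `U'` by it). Any `w ∈ U'` works: let `A` be as in the statement. It
has labels `s₁,s₂,s₃` for `A p, A q, A r`, which involve at most three of the four indices; let `i₀` be
another index, and `s₄` a label for `A (w i₀)`. Then `A = A_σ w` and `w ∈ Z σ i₀`, so `U' ⊆ Z σ i₀`.
Replace `w i₀` by `w i₀ + u`, `u` small: `A_σ` does not change, so
`A (w i₀ + u) = loc (w + u) s₄`. If `s₄` has the index `i₀`, `s₄ = (g,i₀)`: `A u = g u` for all small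
`u`, `A = g`. Otherwise `A u = 0` for all small `u`, contradiction to injectivity. -/
def S_GEN : Prop := ∀ (G : Subgroup (E3 ≃ₗᵢ[ℝ] E3)) [Finite G] (V : Finset E3),
  Submodule.span ℝ (V : Set E3) = ⊤ → ∀ U : Set (Fin 4 → E3), IsOpen U → U.Nonempty →
  ∃ w ∈ U, ∀ A : E3 →ₗ[ℝ] E3, Function.Injective A →
    (∀ x, (x ∈ V ∨ ∃ i, ∃ g ∈ G, g (w i) = x) → (A x ∈ V ∨ ∃ i, ∃ g ∈ G, g (w i) = A x)) →
    ∃ g ∈ G, lin g = A

/-- **[EXA]** `theorem s_EXA (hs : S_STK) (hl : S_LIN) (hg : S_GEN) (hb : S_BAS) : S_EXA`.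
Stack four orbits of free triangular facets at generic points. Proof. `F = {g (f i)}`, `4 N`
elements. STK gives `ε`, `r`; `U = {w | ∀ i, ‖w i - (1+ε) cen V (f i)‖ < r}`; GEN gives
`w ∈ U` (`V` spans by BAS). Stack at `W (g (f i)) = g (w i)` (well defined: free and distinct
orbits), get `V' = newV = V ∪ {g (w i)}`. It is `G`-invariant, so `conv V'` is and LIN gives `H'`.
Exact: `lin g` for `g ∈ G` is a symmetry (`LinearMap.image_convexHull`, `g` permutes the finite set `V'`).
Conversely let `A (conv V') = conv V'`; LIN: `A` is injective and maps `V'` into itself; GEN: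
`A = lin g`. -/
def S_EXA : Prop := ∀ (G : Subgroup (E3 ≃ₗᵢ[ℝ] E3)) [Finite G] (V H : Finset E3), GP G V H →
  ∀ f : Fin 4 → E3, (∀ i, f i ∈ H ∧ (T V (f i)).card = 3 ∧ Free G (f i)) →
  (∀ i j, ∀ g ∈ G, g (f i) = f j → i = j) →
  ∃ V' H' : Finset E3, GP G V' H' ∧ V'.card = V.card + 4 * Nat.card G ∧
    H'.card = H.card + 8 * Nat.card G ∧ Exact G V'

/-- **[TRI]** `theorem s_TRI (hb : S_BAS) (hw : S_SW) : S_TRI`. Counting. (1) `|H| + 4 ≤ 2|V|` (all
`|T V h| ≥ 3` and SW). (2) the number of triangular facets is `≥ 2|H| - 2|V| + 4` (the others have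
`≥ 4` vertices: `3t + 4(|H| - t) ≤ Σ ≤ 2|V| + 2|H| - 4`). (3) There is a triangular facet or a simple
vertex: otherwise `Σ_h |T V h| = Σ_v |T H v|` (double counting; `⟪h,v⟫ = ⟪v,h⟫`) is `≥ 4|H|` and
`≥ 4|V|`, so `≥ 2|V| + 2|H|`, contradiction to SW. -/
def S_TRI : Prop := ∀ V H : Finset E3, Pair V H →
  H.card + 4 ≤ 2 * V.card ∧
  2 * H.card + 4 ≤ (H.filter fun h => (T V h).card = 3).card + 2 * V.card ∧
  ((∃ h ∈ H, (T V h).card = 3) ∨ (∃ v ∈ V, (T H v).card = 3))

/-- **[FIX3]** At most `2N` facets are fixed by an element of order 3. Proof. For `g ≠ 1`,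
`g^3 = 1` the fixed space has dimension at most one: if it has dimension `≥ 2`, then `g` preserves its
orthogonal complement of dimension `≤ 1` and acts on it by `±1`, so `g^3 = 1` gives `g = 1`. A line
through `0` contains at most two elements of `H`: `0 ∉ H` by `expH`; if `h` and `c h`, `c > 1`, are
in `H`: with `x` exposing `c h`... take `x` from `expH h`: `⟪h,x⟫ = 1` so `⟪c h, x⟫ = c > 1`,
contradiction to `⟪h',x⟫ < 1`; so at most one on each half line. Sum over the at most `N` elements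
`g`. -/
def S_FIX3 : Prop := ∀ (G : Subgroup (E3 ≃ₗᵢ[ℝ] E3)) [Finite G] (V H : Finset E3), GP G V H →
  (H.filter fun h => ∃ g ∈ G, g ≠ 1 ∧ g ^ 3 = 1 ∧ g h = h).card ≤ 2 * Nat.card G

/-- **[RND]** `theorem s_RND (ho : S_ORB) (hb : S_BAS) : S_RND`. One round: stack the orbit of the
triangular facet `h` (stabilizer of order `q`), then truncate the orbit of the apex `w`
(`T H' w` has 3 elements, the stabilizer of `w` is that of `h`): i.e. ORB for the pair `(H', V')` and
`w ∈ V'`; the new dual vertex `h₁` is a new facet, triangular, with the stabilizer of `w`, and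
`q (|V''| - |V|) = N (1 + 2)`, same for `H`. The new vertices `v₁ = kk' y`, `y ∈ T H' w`, are simple:
`T H'' v₁ = {h₁} ∪ (T H' w \ {y})`. If `g v₁ = v₁`, `g^3 = 1`, then `g` preserves `T H'' v₁`, fixes
`h₁` (the only one not in `H'`), and permutes the other two; since `g^3 = 1` it fixes them, and
`T H'' v₁` spans (BAS for `Pair.symm`), so `g = 1`. -/
def S_RND : Prop := ∀ (G : Subgroup (E3 ≃ₗᵢ[ℝ] E3)) [Finite G] (V H : Finset E3), GP G V H →
  ∀ h ∈ H, (T V h).card = 3 → ∀ q : ℕ, Nat.card {g : G // (g : E3 ≃ₗᵢ[ℝ] E3) h = h} = q →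
  ∃ (V' H' : Finset E3) (n : ℕ), GP G V' H' ∧ n * q = Nat.card G ∧
    V'.card = V.card + 3 * n ∧ H'.card = H.card + 3 * n ∧
    (∃ h' ∈ H', (T V' h').card = 3 ∧ Nat.card {g : G // (g : E3 ≃ₗᵢ[ℝ] E3) h' = h'} = q) ∧
    (∃ v ∈ V', (T H' v).card = 3 ∧ ∀ g ∈ G, g v = v → g ^ 3 = 1 → g = 1)

/-- **[D]** `theorem s_D (ht : S_TRI) (hr : S_RND) (ha : S_A) (ho : S_ONE) : S_D`. From every invariant
polytope we reach one with a free triangular facet by adding some `((b+2a)N, (2b+a)N)`. Proof. TRI (3):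
there is a triangular facet or a simple vertex; by symmetry (the case of a simple vertex is the first
case for the pair `(H, V)`, the roles of `a` and `b` exchanged; so prove in the first case `FT` for both
`(V',H')` and `(H',V')`) let `h` be a triangular facet, `q` the order of its stabilizer. `q`
rounds RND add `q · 3n = 3N` to both numbers and give a simple vertex `v` such that no element of order
3 fixes it. A for the pair `(H', V')`: adds `(2mN, mN)`, gives `FT G H'' V''`. ONE for the pair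
`(H'', V'')` adds `(2N, N)` and gives both `FT`. Total: `a = m + 2`, `b = 1`. -/
def S_D : Prop := ∀ (G : Subgroup (E3 ≃ₗᵢ[ℝ] E3)) [Finite G] (V H : Finset E3), GP G V H →
  ∃ (a b : ℕ) (V' H' : Finset E3), GP G V' H' ∧ V'.card = V.card + (b + 2 * a) * Nat.card G ∧
    H'.card = H.card + (2 * b + a) * Nat.card G ∧ FT G V' H'

/-- **[DX]** `theorem s_DX (hb : S_BAS) : S_DX`. The polar polytope has the same exact symmetry group.
Proof. Let `A (conv V) = conv V`. `A` is bijective; let `B` be the inverse of the adjoint of `A`. By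
BAS for both pairs `conv H = {y | ∀ x ∈ conv V, ⟪y,x⟫ ≤ 1}`, and `⟪B y, A x⟫ = ⟪y, x⟫`, so
`B (conv H) = conv H`. By `Exact G H`, `B = lin g`, so `A = lin g` (`g` is an isometry:
`⟪g y, A x⟫ = ⟪y,x⟫ = ⟪g y, g x⟫` for all `y`). The same computation shows that every `lin g`,
`g ∈ G`, preserves `conv V`. -/
def S_DX : Prop := ∀ (G : Subgroup (E3 ≃ₗᵢ[ℝ] E3)) (V H : Finset E3), Pair V H →
  Exact G H → Exact G V

/-- **[DIC]** Pure combinatorics (Dickson's lemma). Proof. Let `S \ E` be infinite. Put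
`s = 2x - 4 - y`, `t = 2y - 4 - x` (natural numbers on `S`; `(x,y) ↦ (s,t)` is injective); adding
`(n a', 2 n a')` adds `3 n a'` to `t` only, adding `(2 n a', n a')` adds `3 n a'` to `s` only. Take an
injective sequence in `S \ E`; pass to a subsequence with both `s`, `t` constant mod `3n`, and both
monotone (nondecreasing; `ℕ` is well quasi ordered: `Nat`-valued sequences have monotone
subsequences, `WellQuasiOrderedLE`, `Set.PartiallyWellOrderedOn` or `exists_increasing_or_nonincreasing_subseq`). Case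
1: both unbounded: let `(x,y)` be the first term; some later term has `s' ≥ s + 3 n a₀`,
`t' ≥ t + 3 n b₀`, so it is in `E`, contradiction. Case 2: `s` is eventually constant, `t` unbounded
(not both bounded by injectivity): then `3y - 3x = 2t - 2s... → ∞` (`t - s = 3(y - x)`), so some term
has `y > x + C`; (p3) and a later term with `t' ≥ t + 3 n b₀` give a contradiction. Case 3 is
symmetric. -/
def S_DIC : Prop := ∀ (n : ℕ) (S E : Set (ℕ × ℕ)), 1 ≤ n →
  (∀ x y, (x, y) ∈ S → y + 4 ≤ 2 * x ∧ x + 4 ≤ 2 * y) →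
  (∀ x y, (x, y) ∈ S → ∃ a₀ b₀ : ℕ, ∀ a b, a₀ ≤ a → b₀ ≤ b →
    (x + (b + 2 * a) * n, y + (2 * b + a) * n) ∈ E) →
  (∃ C : ℕ, ∀ x y, (x, y) ∈ S → x + C < y → ∃ b₀ : ℕ, ∀ b, b₀ ≤ b →
    (x + b * n, y + 2 * b * n) ∈ E) →
  (∃ C : ℕ, ∀ x y, (x, y) ∈ S → y + C < x → ∃ a₀ : ℕ, ∀ a, a₀ ≤ a →
    (x + 2 * a * n, y + a * n) ∈ E) →
  (S \ E).Finite

/-- **[EUL]** (optional, may use everything; states the result for the full f-vector). Euler's
formula. Proof: sweep as in SW but with equalities. (a) edges = exposed faces of dimension 1;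
each facet polygon has as many edges as vertices, each edge is in exactly two facets, so
`2 f₁ = Σ_h |T V h|`; (b) each non-extremal vertex is middle in exactly two facets: the level plane
through `v` cuts `P` in a polygon in which `v` is a vertex with two sides, which lie in two
facets. -/
def S_EUL : Prop := ∀ V H : Finset E3, Pair V H →
  faceCount 1 (convexHull ℝ (V : Set E3)) + 2 = V.card + H.card

/-- **[FIN]** The main theorem, from all the other parts. -/
def S_FIN : Prop := ∀ (G : Subgroup (E3 ≃ₗᵢ[ℝ] E3)) [Finite G], (FG G \ FbarG G).Finite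

end Pool.Agent.L7h98.SY
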